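import Pool.Agent.Helper757.TCDecayC

/-! # MP_26bfe6_an: cyclic contraction on a five cycle (helper887) -/

open scoped ComplexConjugate InnerProductSpace

namespace Pool.Agent.H887R3.UC

open Pool.TC

section cyc
variable {H : Type*} [SeminormedAddCommGroup H] [InnerProductSpace ℂ H]

/-- the standard character of `ZMod 5` -/
noncomputable abbrev ps : AddChar (ZMod 5) ℂ := ZMod.stdAddChar

theorem ps_conj (k : ZMod 5) : conj (ps k) = ps (-k) := (AddChar.map_neg_eq_conj _ _).symm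

theorem ps_sum (b : ZMod 5) : ∑ x : ZMod 5, ps (x * b) = if b = 0 then 5 else 0 := by
  have h := AddChar.sum_mulShift (ψ := ps) b (ZMod.isPrimitive_stdAddChar 5)
  rw [h]
  simp [ZMod.card]

/-- Fourier transform -/
noncomputable def FY (y : ZMod 5 → H) (j : ZMod 5) : H := ∑ k, ps (j * k) • y k

theorem FY_sq (y : ZMod 5 → H) (j : ZMod 5) :
    ((‖FY y j‖ ^ 2 : ℝ) : ℂ) = ∑ k, ∑ l, ps (j * (l - k)) * ⟪y k, y l⟫_ℂ := by
  have h0 : ((‖FY y j‖ ^ 2 : ℝ) : ℂ) = ⟪FY y j, FY y j⟫_ℂ := by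
    rw [inner_self_eq_norm_sq_to_K]; push_cast; rfl
  rw [h0]
  unfold FY
  rw [sum_inner]
  refine Finset.sum_congr rfl fun k _ => ?_
  rw [inner_sum]
  refine Finset.sum_congr rfl fun l _ => ?_
  rw [inner_smul_left, inner_smul_right, ps_conj, ← mul_assoc, ← AddChar.map_add_eq_mul]
  congr 2; ring

theorem cyc5 (y : ZMod 5 → H) (z : ℂ) (γ : ℝ) (h : ∀ k, (z * ps k).re ≤ γ) :
    (z * ∑ k, ⟪y k, y (k + 1)⟫_ℂ).re ≤ γ * ∑ k, ‖y k‖ ^ 2 := by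
  have s0 : ∑ j, ‖FY y j‖ ^ 2 = 5 * ∑ k, ‖y k‖ ^ 2 := by
    have e : ((∑ j, ‖FY y j‖ ^ 2 : ℝ) : ℂ) = ((5 * ∑ k, ‖y k‖ ^ 2 : ℝ) : ℂ) := by
      rw [Complex.ofReal_sum]
      simp_rw [FY_sq]
      rw [Finset.sum_comm]
      rw [Complex.ofReal_mul, Complex.ofReal_sum, Finset.mul_sum]
      refine Finset.sum_congr rfl fun k _ => ?_
      rw [Finset.sum_comm]
      have e1 : ∀ l : ZMod 5, ∑ j, ps (j * (l - k)) * ⟪y k, y l⟫_ℂ =
          (if l = k then 5 * ⟪y k, y l⟫_ℂ else 0) := by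
        intro l
        rw [← Finset.sum_mul, ps_sum]
        by_cases hl : l = k
        · simp [hl]
        · rw [if_neg (sub_ne_zero.2 hl), if_neg hl, zero_mul]
      simp_rw [e1]
      rw [Finset.sum_ite_eq' Finset.univ k, if_pos (Finset.mem_univ _), inner_self_eq_norm_sq_to_K]
      push_cast; rfl
    exact_mod_cast e
  have s1 : ∑ j, ps (-j) * ((‖FY y j‖ ^ 2 : ℝ) : ℂ) = 5 * ∑ k, ⟪y k, y (k + 1)⟫_ℂ := by
    simp_rw [FY_sq, Finset.mul_sum]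
    rw [Finset.sum_comm]
    refine Finset.sum_congr rfl fun k _ => ?_
    rw [Finset.sum_comm]
    have e1 : ∀ l : ZMod 5, ∑ j, ps (-j) * (ps (j * (l - k)) * ⟪y k, y l⟫_ℂ) =
        (if l = k + 1 then 5 * ⟪y k, y l⟫_ℂ else 0) := by
      intro l
      have e2 : ∀ j : ZMod 5, ps (-j) * (ps (j * (l - k)) * ⟪y k, y l⟫_ℂ) =
          ps (j * (l - k - 1)) * ⟪y k, y l⟫_ℂ := by
        intro j
        rw [← mul_assoc, ← AddChar.map_add_eq_mul]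
        congr 2; ring
      simp_rw [e2]
      rw [← Finset.sum_mul, ps_sum]
      by_cases hl : l = k + 1
      · simp [hl]
      · rw [if_neg (fun h => hl (by linear_combination h)), if_neg hl, zero_mul]
    simp_rw [e1]
    rw [Finset.sum_ite_eq' Finset.univ (k + 1), if_pos (Finset.mem_univ _)]
  have s2 : (5 * (z * ∑ k, ⟪y k, y (k + 1)⟫_ℂ)).re ≤ 5 * (γ * ∑ k, ‖y k‖ ^ 2) := by
    have e : (5 * (z * ∑ k, ⟪y k, y (k + 1)⟫_ℂ)) = ∑ j, (z * ps (-j)) * ((‖FY y j‖ ^ 2 : ℝ) : ℂ) := by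
      calc (5 * (z * ∑ k, ⟪y k, y (k + 1)⟫_ℂ)) = z * (5 * ∑ k, ⟪y k, y (k + 1)⟫_ℂ) := by ring
        _ = z * ∑ j, ps (-j) * ((‖FY y j‖ ^ 2 : ℝ) : ℂ) := by rw [s1]
        _ = _ := by rw [Finset.mul_sum]; exact Finset.sum_congr rfl fun j _ => by ring
    rw [e, Complex.re_sum]
    calc ∑ j, (z * ps (-j) * ((‖FY y j‖ ^ 2 : ℝ) : ℂ)).re ≤ ∑ j, γ * ‖FY y j‖ ^ 2 := by
          refine Finset.sum_le_sum fun j _ => ?_
          rw [Complex.re_mul_ofReal]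
          exact mul_le_mul_of_nonneg_right (h (-j)) (by positivity)
      _ = 5 * (γ * ∑ k, ‖y k‖ ^ 2) := by rw [← Finset.mul_sum, s0]; ring
  have e5 : (5 * (z * ∑ k, ⟪y k, y (k + 1)⟫_ℂ)).re = 5 * (z * ∑ k, ⟪y k, y (k + 1)⟫_ℂ).re := by
    simp [Complex.mul_re]
  rw [e5] at s2
  linarith

theorem contr_gen (y : ZMod 5 → H) (ζ : ℂ) (hζ : conj ζ * ζ = 1) (γ : ℝ)
    (h : ∀ k, (ζ ^ 2 * ps k).re ≤ γ) :
    ∑ k, ‖(1 / 2 : ℂ) • (conj ζ • y k + ζ • y (k + 1))‖ ^ 2 ≤ ((1 + γ) / 2) * ∑ k, ‖y k‖ ^ 2 := by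
  have key : ∀ x y : H, ‖(1 / 2 : ℂ) • (conj ζ • x + ζ • y)‖ ^ 2 =
      (1 / 4) * (‖x‖ ^ 2 + ‖y‖ ^ 2) + (1 / 2) * (ζ ^ 2 * ⟪x, y⟫_ℂ).re := by
    intro x y
    have e1 : ‖(1 / 2 : ℂ) • (conj ζ • x + ζ • y)‖ ^ 2 = (1 / 4) * ‖conj ζ • x + ζ • y‖ ^ 2 := by
      rw [norm_smul, mul_pow]
      norm_num
    have e2 : ⟪conj ζ • x + ζ • y, conj ζ • x + ζ • y⟫_ℂ = ⟪x, x⟫_ℂ + ⟪y, y⟫_ℂ +
        (ζ ^ 2 * ⟪x, y⟫_ℂ + conj (ζ ^ 2 * ⟪x, y⟫_ℂ)) := by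
      simp only [inner_add_left, inner_add_right, inner_smul_left, inner_smul_right, map_mul,
        map_pow, inner_conj_symm, Complex.conj_conj]
      linear_combination (⟪x, x⟫_ℂ + ⟪y, y⟫_ℂ) * hζ
    have e3 := congrArg Complex.re e2
    simp only [Complex.add_re, Complex.conj_re] at e3
    have n0 : ∀ x : H, (⟪x, x⟫_ℂ).re = ‖x‖ ^ 2 := fun x => by
      have := inner_self_eq_norm_sq (𝕜 := ℂ) x
      exact this
    rw [n0, n0, n0] at e3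
    rw [e1, e3]; ring
  have hc := cyc5 y (ζ ^ 2) γ h
  rw [Finset.mul_sum, Complex.re_sum] at hc
  have hs : ∑ k, ‖y (k + 1)‖ ^ 2 = ∑ k, ‖y k‖ ^ 2 :=
    Equiv.sum_comp (Equiv.addRight (1 : ZMod 5)) fun k => ‖y k‖ ^ 2
  calc ∑ k, ‖(1 / 2 : ℂ) • (conj ζ • y k + ζ • y (k + 1))‖ ^ 2
      = ∑ k, ((1 / 4) * (‖y k‖ ^ 2 + ‖y (k + 1)‖ ^ 2) + (1 / 2) * (ζ ^ 2 * ⟪y k, y (k + 1)⟫_ℂ).re) :=
        Finset.sum_congr rfl fun k _ => key _ _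
    _ = (1 / 4) * (∑ k, ‖y k‖ ^ 2 + ∑ k, ‖y (k + 1)‖ ^ 2) +
          (1 / 2) * ∑ k, (ζ ^ 2 * ⟪y k, y (k + 1)⟫_ℂ).re := by
        rw [Finset.sum_add_distrib, ← Finset.mul_sum, ← Finset.mul_sum, Finset.sum_add_distrib]
    _ ≤ _ := by rw [hs]; linarith

/-- the contraction on a five cycle, explicit form -/
theorem contr5 (x0 x1 x2 x3 x4 : H) (ζ : ℂ) (hζ : conj ζ * ζ = 1) (γ : ℝ)
    (h : ∀ k, (ζ ^ 2 * ps k).re ≤ γ) :
    ‖(1 / 2 : ℂ) • (conj ζ • x0 + ζ • x1)‖ ^ 2 + ‖(1 / 2 : ℂ) • (conj ζ • x1 + ζ • x2)‖ ^ 2 +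
      ‖(1 / 2 : ℂ) • (conj ζ • x2 + ζ • x3)‖ ^ 2 + ‖(1 / 2 : ℂ) • (conj ζ • x3 + ζ • x4)‖ ^ 2 +
      ‖(1 / 2 : ℂ) • (conj ζ • x4 + ζ • x0)‖ ^ 2 ≤
      ((1 + γ) / 2) * (‖x0‖ ^ 2 + ‖x1‖ ^ 2 + ‖x2‖ ^ 2 + ‖x3‖ ^ 2 + ‖x4‖ ^ 2) := by
  have hc := contr_gen (H := H) (![x0, x1, x2, x3, x4] : Fin 5 → H) ζ hζ γ h
  have e1 : ∀ f : ZMod 5 → ℝ, ∑ k, f k = f (0 : Fin 5) + f (1 : Fin 5) + f (2 : Fin 5) +
      f (3 : Fin 5) + f (4 : Fin 5) := fun f => Fin.sum_univ_five (f : Fin 5 → ℝ)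
  rw [e1, e1] at hc
  exact hc

end cyc

/-! ### phases -/

/-- the good phases -/
structure GoodPh (ζ : ℂ) (γ : ℝ) : Prop where
  unit : conj ζ * ζ = 1
  norm : ‖ζ‖ = 1
  le : ∀ k, (ζ ^ 2 * ps k).re ≤ γ
  lt1 : γ < 1
  gt : -1 ≤ γ

theorem re_lt_one {v : ℂ} (h : ‖v‖ = 1) (h1 : v ≠ 1) : v.re < 1 := by
  have h2 : v.re ≤ 1 := h ▸ Complex.re_le_norm v
  refine lt_of_le_of_ne h2 fun he => h1 ?_
  have h3 : v.re ^ 2 + v.im ^ 2 = 1 := by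
    have := Complex.sq_norm v
    rw [h, Complex.normSq_apply] at this
    nlinarith
  have h4 : v.im = 0 := by
    rw [he] at h3
    nlinarith [sq_nonneg v.im, pow_eq_zero_iff (n := 2) (a := v.im) (by norm_num)]
  exact Complex.ext (by simpa using he) (by simpa using h4)

theorem ee_add (s t : ℝ) : ee (s + t) = ee s * ee t := by
  unfold ee
  rw [← Complex.exp_add]
  congr 1; push_cast; ring

theorem ee_zero : ee 0 = 1 := by simp [ee]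

theorem norm_ee (t : ℝ) : ‖ee t‖ = 1 := by
  unfold ee
  rw [Complex.norm_exp]
  simp

theorem ee_eq_one {t : ℝ} (h : ee t = 1) : ∃ n : ℤ, t = n := by
  unfold ee at h
  rw [Complex.exp_eq_one_iff] at h
  obtain ⟨n, hn⟩ := h
  refine ⟨n, ?_⟩
  have h2 : (2 * Real.pi * Complex.I : ℂ) ≠ 0 := Complex.two_pi_I_ne_zero
  have h3 : ((t : ℂ) - n) * (2 * Real.pi * Complex.I) = 0 := by
    linear_combination hn
  have h4 := (mul_eq_zero.1 h3).resolve_right h2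
  have h5 : (t : ℂ) = ((n : ℝ) : ℂ) := by
    rw [sub_eq_zero] at h4
    rw [h4]; push_cast; rfl
  exact_mod_cast h5

theorem ee_nsmul (n : ℕ) (t : ℝ) : ee (n * t) = ee t ^ n := by
  induction n with
  | zero => simp [ee_zero]
  | succ n ih =>
    rw [pow_succ, ← ih, ← ee_add]
    congr 1; push_cast; ring

theorem ps_pow (k : ZMod 5) : ps k ^ 5 = 1 := by
  rw [← AddChar.map_nsmul_eq_pow]
  have : (5 : ℕ) • k = 0 := by
    rw [nsmul_eq_mul]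
    have h5 : ((5 : ℕ) : ZMod 5) = 0 := by decide
    rw [h5, zero_mul]
  rw [this, AddChar.map_zero_eq_one]

theorem goodPh (t : ℝ) (ht : ∀ n : ℤ, 10 * t ≠ n) : ∃ γ, GoodPh (ee t) γ := by
  set ζ := ee t with hζ
  have hn : ‖ζ‖ = 1 := norm_ee _
  have hu : conj ζ * ζ = 1 := by
    rw [mul_comm, Complex.mul_conj, Complex.normSq_eq_norm_sq, hn]; simp
  have h6 : (ζ ^ 2) ^ 5 ≠ 1 := by
    intro h
    have e : (ζ ^ 2) ^ 5 = ee (10 * t) := by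
      have := ee_nsmul 10 t
      push_cast at this
      rw [this, ← hζ, ← pow_mul]
    rw [e] at h
    obtain ⟨n, hn⟩ := ee_eq_one h
    exact ht n hn
  have np : ∀ k : ZMod 5, ‖ζ ^ 2 * ps k‖ = 1 := by
    intro k
    rw [norm_mul, norm_pow, hn, one_pow, one_mul]
    have : ‖ps k‖ ^ 5 = 1 := by rw [← norm_pow, ps_pow, norm_one]
    exact (pow_eq_one_iff_of_nonneg (norm_nonneg _) (by norm_num)).1 this
  have hlt : ∀ k : ZMod 5, (ζ ^ 2 * ps k).re < 1 := by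
    intro k
    refine re_lt_one (np k) fun h => h6 ?_
    have : (ζ ^ 2 * ps k) ^ 5 = 1 := by rw [h, one_pow]
    rwa [mul_pow, ps_pow, mul_one] at this
  obtain ⟨k0, -, hk0⟩ := Finset.exists_max_image (Finset.univ : Finset (ZMod 5))
    (fun k => (ζ ^ 2 * ps k).re) ⟨0, Finset.mem_univ _⟩
  refine ⟨(ζ ^ 2 * ps k0).re, hu, hn, fun k => hk0 k (Finset.mem_univ _), hlt k0, ?_⟩
  have h1 := Complex.abs_re_le_norm (ζ ^ 2 * ps k0)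
  rw [np] at h1
  exact (abs_le.1 h1).1

end Pool.Agent.H887R3.UC
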