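import Pool.Agent.H887R3.UC.Ind

/-! # MP_26bfe6_an: laws of the stages and the decay theorem, pattern `(1, 4)`, base five
(helper887); adapted from `Pool.Agent.Helper757.TCDecayG` and `Pool.Agent.Helper757.TCDecay` -/

open scoped ComplexConjugate InnerProductSpace

namespace Pool.Agent.H887R3.UC

open Pool.TC (PSys avg ee)
open Pool.TC.Dec

/-! ### the laws -/

/-- window length of level `m` -/
def Hm (m : ℕ) : ℕ := 4 ^ (m + 1)

theorem Hm_pos (m : ℕ) : 0 < Hm m := by unfold Hm; positivity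

instance (m : ℕ) : NeZero (Hm m) := ⟨(Hm_pos m).ne'⟩

/-- sample space: residue bits and window variables of the levels below `N` -/
abbrev Om (N : ℕ) : Type := (Fin N → Bool) × ((m : Fin N) → Fin (Hm m))

/-- the digit `d_m + 5 r_m` of a sample -/
def dig {N : ℕ} (ω : Om N) (m : Fin N) : ℤ := (if ω.1 m then 1 else 0) + 5 * ((ω.2 m : ℕ) : ℤ)

/-- the random integer of the stage -/
def aval (L : ℕ → ℤ) {N : ℕ} (ω : Om N) : ℤ := ∑ m : Fin N, dig ω m * L m

/-- number of residue digits equal to one -/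
def Wd {N : ℕ} (ω : Om N) : ℕ := ∑ m : Fin N, (if ω.1 m then 1 else 0)

/-- the levels actually used -/
def Lv : ℕ → ℤ
  | 0 => 1
  | (m + 1) => 5 * 4 ^ (m + 10) * (5 * (Hm m : ℤ) + 2) * Lv m

/-- sample space of the window variable of level `n` -/
abbrev RR (n : ℕ) : Type := Fin (Hm n)

/-- the window variable -/
def rr (n : ℕ) (y : RR n) : ℤ := ((y : ℕ) : ℤ)

theorem NI_rr (n : ℕ) : NI (rr n) (2 / Hm n) := by
  intro Φ hΦ
  set H := Hm n with hH
  have hHpos : 0 < H := Hm_pos n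
  have hHR : (0 : ℝ) < H := by exact_mod_cast hHpos
  have e3 : (avg fun r : RR n => Φ (rr n r + 1)) - (avg fun r : RR n => Φ (rr n r)) =
      (H : ℝ)⁻¹ • (Φ (H : ℤ) - Φ 0) := by
    have := Finset.sum_range_sub (fun i : ℕ => Φ (i : ℤ)) H
    simp only [Nat.cast_zero] at this
    rw [← this]
    unfold avg rr
    rw [← smul_sub, Fintype.card_fin, ← Finset.sum_sub_distrib, Finset.sum_range]
    push_cast
    rfl
  rw [e3, norm_smul, norm_inv, Real.norm_of_nonneg hHR.le]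
  have h2 : ‖Φ (H : ℤ) - Φ 0‖ ≤ 2 := (norm_sub_le _ _).trans (by linarith [hΦ H, hΦ 0])
  calc (H : ℝ)⁻¹ * ‖Φ (H : ℤ) - Φ 0‖ ≤ (H : ℝ)⁻¹ * 2 := by gcongr
    _ = 2 / H := by ring

theorem NI_mono {R : Type} [Fintype R] {ρ : R → ℤ} {δ δ' : ℝ} (h : NI ρ δ) (hd : δ ≤ δ') : NI ρ δ' :=
  fun Φ hΦ => (h Φ hΦ).trans hd

/-! ### peeling off the top level -/

/-- reordering equivalence -/
def e2 (n : ℕ) : Bool × RR n × Om n ≃
    (Bool × (Fin n → Bool)) × (Fin (Hm n) × ((m : Fin n) → Fin (Hm m))) where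
  toFun x := ((x.1, x.2.2.1), (x.2.1, x.2.2.2))
  invFun z := (z.1.1, z.2.1, (z.1.2, z.2.2))
  left_inv _ := rfl
  right_inv _ := rfl

/-- gluing equivalence -/
def e3 (n : ℕ) : (Bool × (Fin n → Bool)) × (Fin (Hm n) × ((m : Fin n) → Fin (Hm m))) ≃ Om (n + 1) :=
  Equiv.prodCongr (Fin.snocEquiv (fun _ : Fin (n + 1) => Bool))
      (Fin.snocEquiv (fun m : Fin (n + 1) => Fin (Hm m)))

theorem Wd_e (n : ℕ) (d : Bool) (y : RR n) (ω : Om n) :
    Wd (e3 n (e2 n (d, y, ω))) = Wd ω + (if d then 1 else 0) := by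
  unfold Wd
  rw [Fin.sum_univ_castSucc]
  simp [e3, e2, Fin.snocEquiv]

theorem aval_e (L : ℕ → ℤ) (n : ℕ) (d : Bool) (y : RR n) (ω : Om n) :
    aval L (e3 n (e2 n (d, y, ω))) = aval L ω + (bv d + 5 * rr n y) * L n := by
  unfold aval dig
  rw [Fin.sum_univ_castSucc]
  simp [e3, e2, Fin.snocEquiv, bv, rr]

theorem avgOm_succ {W : Type*} [AddCommGroup W] [Module ℝ W] (L : ℕ → ℤ) (n : ℕ) (Ψ : ℕ → ℤ → W) :
    (avg fun ω : Om (n + 1) => Ψ (Wd ω) (aval L ω)) = avg fun d : Bool => avg fun y : RR n =>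
      avg fun ω : Om n => Ψ (Wd ω + (if d then 1 else 0)) (aval L ω + (bv d + 5 * rr n y) * L n) := by
  rw [← avg_equiv ((e2 n).trans (e3 n)), avg_prod]
  refine avg_congr fun d => ?_
  rw [avg_prod]
  refine avg_congr fun y => avg_congr fun ω => ?_
  rw [Equiv.trans_apply, Wd_e, aval_e]

variable {A : Type} [CommRing A] [StarRing A] [Algebra ℂ A] [StarModule ℂ A] [PSys A]

theorem norm_Aw_sq {R : ℕ → Type} [∀ n, Fintype (R n)] [∀ n, Nonempty (R n)] {δ : ℝ} (L : ℕ → ℤ)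
    (ρ : ∀ n, R n → ℤ) (hρ : ∀ n, NI (ρ n) δ) {ζ : ℂ} {γ : ℝ}
    (hζ : GoodPh ζ γ) {f₁ f₂ : A} (h₁ : f₁ ∈ (PSys.ball : Set A)) (h₂ : f₂ ∈ (PSys.ball : Set A))
    (G : ℕ) [NeZero G] (n : ℕ) (c : ℤ) :
    ‖Aw L ρ ζ f₁ f₂ n c‖ ^ 2 ≤ n * (3 * G * δ) +
      √(((3 + γ) / 4) ^ n + n * ((15 * G + 9) * δ + 1 / G)) := by
  obtain ⟨Ω, i1, i2, sg, sg', V, hV, hb, hi, hii⟩ := state_exists L ρ hρ hζ h₁ h₂ G n
  have h0 : ‖Aw L ρ ζ f₁ f₂ n c‖ ^ 2 = (⟪Aw L ρ ζ f₁ f₂ n c, Aw L ρ ζ f₁ f₂ n c⟫_ℂ).re := by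
    have := inner_self_eq_norm_sq (𝕜 := ℂ) (Aw L ρ ζ f₁ f₂ n c)
    exact this.symm
  rw [h0]
  refine (Complex.re_le_norm _).trans ?_
  have h1 := hi c c
  set P := avg fun ω => pr (V0 f₁ f₂) (V ω) (sg ω + c) (sg' ω + c) with hP
  have h2 : ‖P‖ ≤ √(((3 + γ) / 4) ^ n + n * ((15 * G + 9) * δ + 1 / G)) := by
    have h3 : ‖P‖ ≤ avg fun ω => ‖V ω (sg' ω + c) (4 * sg ω + 4 * c)‖ := by
      refine (norm_avg_le _).trans (avg_le_avg fun ω => ?_)
      unfold pr
      calc _ ≤ ‖V0 f₁ f₂ (sg ω + c) (4 * (sg' ω + c))‖ * ‖V ω (sg' ω + c) (4 * (sg ω + c))‖ :=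
            norm_inner_le_norm _ _
        _ ≤ 1 * ‖V ω (sg' ω + c) (4 * (sg ω + c))‖ :=
            mul_le_mul_of_nonneg_right (norm_V0 h₁ h₂ _ _) (norm_nonneg _)
        _ = _ := by rw [one_mul, mul_add]
    have h4 : ‖P‖ ^ 2 ≤ ((3 + γ) / 4) ^ n + n * ((15 * G + 9) * δ + 1 / G) :=
      (pow_le_pow_left₀ (norm_nonneg _) h3 2).trans (avg_sq_le.trans (hii c (4 * c)))
    exact Real.le_sqrt_of_sq_le h4
  have h5 := norm_sub_norm_le (⟪Aw L ρ ζ f₁ f₂ n c, Aw L ρ ζ f₁ f₂ n c⟫_ℂ) P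
  linarith

/-- pulling out the levels below `N'` -/
theorem avg_eq_Aw (L : ℕ → ℤ) (f₁ f₂ : A) (t : ℝ) (N' J : ℕ) (c : ℤ) :
    (avg fun ω : Om (N' + J) => ee (t * Wd ω) •
      (PSys.tau (c + aval L ω) f₁ * PSys.tau (4 * (c + aval L ω)) f₂)) =
    avg fun ω : Om N' => ee (t * Wd ω) •
      Aw (R := fun n => RR (N' + n)) (fun n => L (N' + n)) (fun n => rr (N' + n)) (ee t) f₁ f₂ J
        (c + aval L ω) := by
  induction J generalizing c with
  | zero => rfl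
  | succ J ih =>
    have h1 := avgOm_succ L (N' + J) (fun k a => ee (t * k) •
      (PSys.tau (c + a) f₁ * PSys.tau (4 * (c + a)) f₂))
    have h2 : (avg fun ω : Om (N' + (J + 1)) => ee (t * Wd ω) •
      (PSys.tau (c + aval L ω) f₁ * PSys.tau (4 * (c + aval L ω)) f₂)) =
      avg fun d : Bool => avg fun y : RR (N' + J) => avg fun ω : Om (N' + J) =>
        ee (t * (Wd ω + (if d then 1 else 0) : ℕ)) •
      (PSys.tau (c + (aval L ω + (bv d + 5 * rr (N' + J) y) * L (N' + J))) f₁ *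
        PSys.tau (4 * (c + (aval L ω + (bv d + 5 * rr (N' + J) y) * L (N' + J)))) f₂) := h1
    rw [h2]
    have h3 : ∀ (d : Bool) (y : RR (N' + J)), (avg fun ω : Om (N' + J) =>
        ee (t * (Wd ω + (if d then 1 else 0) : ℕ)) •
      (PSys.tau (c + (aval L ω + (bv d + 5 * rr (N' + J) y) * L (N' + J))) f₁ *
        PSys.tau (4 * (c + (aval L ω + (bv d + 5 * rr (N' + J) y) * L (N' + J)))) f₂)) =
        avg fun ω : Om N' => ee (t * Wd ω) • (ph (ee t) d •
          Aw (R := fun n => RR (N' + n)) (fun n => L (N' + n)) (fun n => rr (N' + n)) (ee t) f₁ f₂ J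
          ((c + aval L ω) + (bv d + 5 * rr (N' + J) y) * L (N' + J))) := by
      intro d y
      have h4 := ih (c + (bv d + 5 * rr (N' + J) y) * L (N' + J))
      have hph : ∀ k : ℕ, ee (t * (k + (if d then 1 else 0) : ℕ)) = ph (ee t) d * ee (t * k) := by
        intro k
        unfold ph
        cases d
        · simp
        · simp only [if_true]
          rw [← ee_add]
          congr 1; push_cast; ring
      have e1 : (avg fun ω : Om (N' + J) =>
        ee (t * (Wd ω + (if d then 1 else 0) : ℕ)) •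
      (PSys.tau (c + (aval L ω + (bv d + 5 * rr (N' + J) y) * L (N' + J))) f₁ *
        PSys.tau (4 * (c + (aval L ω + (bv d + 5 * rr (N' + J) y) * L (N' + J)))) f₂)) =
        ph (ee t) d • (avg fun ω : Om (N' + J) => ee (t * Wd ω) •
        (PSys.tau (c + (bv d + 5 * rr (N' + J) y) * L (N' + J) + aval L ω) f₁ *
        PSys.tau (4 * (c + (bv d + 5 * rr (N' + J) y) * L (N' + J) + aval L ω)) f₂)) := by
        rw [csmul_avg]
        refine avg_congr fun ω => ?_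
        rw [hph, mul_smul]
        have e5 : c + (aval L ω + (bv d + 5 * rr (N' + J) y) * L (N' + J)) =
          c + (bv d + 5 * rr (N' + J) y) * L (N' + J) + aval L ω := by ring
        rw [e5]
      rw [e1, h4, csmul_avg]
      refine avg_congr fun ω => ?_
      rw [smul_comm]
      have e6 : c + (bv d + 5 * rr (N' + J) y) * L (N' + J) + aval L ω =
        (c + aval L ω) + (bv d + 5 * rr (N' + J) y) * L (N' + J) := by ring
      rw [e6]
    have h5 : (avg fun d : Bool => avg fun y : RR (N' + J) => avg fun ω : Om (N' + J) =>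
        ee (t * (Wd ω + (if d then 1 else 0) : ℕ)) •
      (PSys.tau (c + (aval L ω + (bv d + 5 * rr (N' + J) y) * L (N' + J))) f₁ *
        PSys.tau (4 * (c + (aval L ω + (bv d + 5 * rr (N' + J) y) * L (N' + J)))) f₂)) =
      avg fun d : Bool => avg fun y : RR (N' + J) => avg fun ω : Om N' => ee (t * Wd ω) •
        (ph (ee t) d •
          Aw (R := fun n => RR (N' + n)) (fun n => L (N' + n)) (fun n => rr (N' + n)) (ee t) f₁ f₂ J
          ((c + aval L ω) + (bv d + 5 * rr (N' + J) y) * L (N' + J))) :=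
      avg_congr fun d => avg_congr fun y => h3 d y
    rw [h5]
    have h6 : ∀ d : Bool, (avg fun y : RR (N' + J) => avg fun ω : Om N' => ee (t * Wd ω) •
        (ph (ee t) d •
          Aw (R := fun n => RR (N' + n)) (fun n => L (N' + n)) (fun n => rr (N' + n)) (ee t) f₁ f₂ J
          ((c + aval L ω) + (bv d + 5 * rr (N' + J) y) * L (N' + J)))) =
        avg fun ω : Om N' => avg fun y : RR (N' + J) => ee (t * Wd ω) •
        (ph (ee t) d •
          Aw (R := fun n => RR (N' + n)) (fun n => L (N' + n)) (fun n => rr (N' + n)) (ee t) f₁ f₂ J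
          ((c + aval L ω) + (bv d + 5 * rr (N' + J) y) * L (N' + J))) := fun d => avg_comm _
    rw [avg_congr h6, avg_comm]
    refine avg_congr fun ω => ?_
    have h7 : Aw (R := fun n => RR (N' + n)) (fun n => L (N' + n)) (fun n => rr (N' + n)) (ee t) f₁ f₂
        (J + 1) (c + aval L ω) = avg fun d : Bool => avg fun y : RR (N' + J) =>
        ph (ee t) d • Aw (R := fun n => RR (N' + n)) (fun n => L (N' + n)) (fun n => rr (N' + n))
          (ee t) f₁ f₂ J ((c + aval L ω) + (bv d + 5 * rr (N' + J) y) * L (N' + J)) := rfl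
    rw [h7, csmul_avg]
    refine avg_congr fun d => ?_
    rw [csmul_avg]

/-- DECAY: for every system the phase `e(t W)` is asymptotically orthogonal to the pattern
`(1, 4)` along the random integers of the stages -/
theorem decay (L : ℕ → ℤ) (f₁ f₂ : A) (h₁ : f₁ ∈ PSys.ball) (h₂ : f₂ ∈ PSys.ball)
    (t : ℝ) (ht : ∀ n : ℤ, 10 * t ≠ n) (ε : ℝ) (hε : 0 < ε) :
    ∃ N₀, ∀ N ≥ N₀, ‖avg fun ω : Om N =>
      ee (t * Wd ω) • (PSys.tau (aval L ω) f₁ * PSys.tau (4 * aval L ω) f₂)‖ ≤ ε := by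
  obtain ⟨γ, hγ⟩ := goodPh t ht
  set g := (3 + γ) / 4 with hg
  have hg1 : g < 1 := by have := hγ.lt1; rw [hg]; linarith
  have hg0 : 0 ≤ g := by have := hγ.gt; rw [hg]; linarith
  set η := (ε ^ 2 / 2) ^ 2 / 3 with hη
  have hη0 : 0 < η := by positivity
  obtain ⟨J, hJ⟩ := exists_pow_lt_of_lt_one hη0 hg1
  obtain ⟨G, hG⟩ := exists_nat_gt ((J : ℝ) / η)
  have hGpos : (0 : ℝ) < G := lt_of_le_of_lt (by positivity) hG
  have hGne : NeZero G := ⟨by rintro rfl; simp at hGpos⟩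
  -- the window parameter
  set δ₀ := min (ε ^ 2 / 2) η / (((J : ℝ) + 1) * (15 * G + 9)) with hδ₀
  have hδ₀pos : 0 < δ₀ := by positivity
  obtain ⟨M, hM⟩ := exists_nat_gt (2 / δ₀)
  have hδM : ∀ m ≥ M, (2 : ℝ) / Hm m ≤ δ₀ := by
    intro m hm
    have h1 : (M : ℝ) ≤ Hm m := by
      have h2 : m + 1 < 4 ^ (m + 1) := Nat.lt_pow_self (by norm_num)
      have : M ≤ Hm m := by unfold Hm; omega
      exact_mod_cast this
    have h4 : 0 < (Hm m : ℝ) := by exact_mod_cast Hm_pos m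
    rw [div_le_iff₀ h4]
    rw [div_lt_iff₀ hδ₀pos] at hM
    nlinarith
  refine ⟨M + J, fun N hN => ?_⟩
  obtain ⟨N', rfl⟩ : ∃ N', N = N' + J := ⟨N - J, by omega⟩
  have hN' : M ≤ N' := by omega
  have e := avg_eq_Aw L f₁ f₂ t N' J 0
  simp only [zero_add] at e
  rw [e]
  refine norm_avg_le_of fun ω => ?_
  rw [norm_smul, norm_ee, one_mul]
  have hNI : ∀ n, NI (rr (N' + n)) δ₀ := fun n => NI_mono (NI_rr (N' + n)) (hδM _ (by omega))
  have hb := norm_Aw_sq (R := fun n => RR (N' + n)) (fun n => L (N' + n)) (fun n => rr (N' + n)) hNI hγ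
    h₁ h₂ G J (aval L ω)
  set x := Aw (R := fun n => RR (N' + n)) (fun n => L (N' + n)) (fun n => rr (N' + n)) (ee t) f₁ f₂ J
    (aval L ω) with hx
  rw [← hg] at hb
  have hD : 0 < ((J : ℝ) + 1) * (15 * G + 9) := by positivity
  have hJδ : (J : ℝ) * ((15 * G + 9) * δ₀) ≤ min (ε ^ 2 / 2) η := by
    have h1 : ((J : ℝ) + 1) * (15 * G + 9) * δ₀ = min (ε ^ 2 / 2) η := by
      rw [hδ₀]; field_simp
    have h2 : 0 ≤ (15 * (G : ℝ) + 9) * δ₀ := by positivity
    nlinarith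
  have t1 : (J : ℝ) * (3 * G * δ₀) ≤ ε ^ 2 / 2 := by
    have h1 : (J : ℝ) * (3 * G * δ₀) ≤ J * ((15 * G + 9) * δ₀) := by
      have : 3 * (G : ℝ) * δ₀ ≤ (15 * G + 9) * δ₀ := by nlinarith
      exact mul_le_mul_of_nonneg_left this (by positivity)
    exact (h1.trans hJδ).trans (min_le_left _ _)
  have t2 : g ^ J + J * ((15 * G + 9) * δ₀ + 1 / G) ≤ (ε ^ 2 / 2) ^ 2 := by
    have h1 : (J : ℝ) * (1 / G) ≤ η := by
      rw [div_lt_iff₀ hη0] at hG
      rw [mul_one_div, div_le_iff₀ hGpos]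
      nlinarith
    have h2 := hJδ.trans (min_le_right _ _)
    have h3 : (ε ^ 2 / 2) ^ 2 = 3 * η := by rw [hη]; ring
    rw [h3, mul_add]
    linarith
  have t3 : √(g ^ J + J * ((15 * G + 9) * δ₀ + 1 / G)) ≤ ε ^ 2 / 2 := by
    rw [← Real.sqrt_sq (show (0:ℝ) ≤ ε ^ 2 / 2 by positivity)]
    exact Real.sqrt_le_sqrt t2
  have t4 : ‖x‖ ^ 2 ≤ ε ^ 2 := by linarith
  exact (pow_le_pow_iff_left₀ (norm_nonneg _) hε.le (by norm_num)).1 t4

end Pool.Agent.H887R3.UC
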