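import Pool.Agent.H887R3.UC.Step

/-! # MP_26bfe6_an: the exchange step, pattern `(1, 4)`, base five (helper887);
adapted from `Pool.Agent.Helper757.TCDecayE` -/

open scoped ComplexConjugate InnerProductSpace

namespace Pool.Agent.H887R3.UC

open Pool.TC Pool.TC.Dec

variable {A : Type} [CommRing A] [StarRing A] [Algebra ℂ A] [StarModule ℂ A] [PSys A]

/-- the pairing -/
noncomputable def pr (V0 V : ℤ → ℤ → A) (σ σ' : ℤ) : ℂ := ⟪V0 σ (4 * σ'), V σ' (4 * σ)⟫_ℂ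

theorem pr_shift {V0 V : ℤ → ℤ → A} (h0 : Cov V0) (hV : Cov V) (σ σ' w : ℤ) :
    ⟪V0 σ (4 * σ'), V (σ' - 3 * w) (4 * σ + 12 * w)⟫_ℂ = pr V0 V (σ + 4 * w) (σ' + w) := by
  unfold pr
  rw [← inner_tau (4 * w), ← h0, ← hV]
  congr 1
  · congr 1; ring
  · congr 1 <;> ring

theorem pr_norm {V0 V : ℤ → ℤ → A} (b0 : ∀ s t, ‖V0 s t‖ ≤ 1) (b : ∀ s t, ‖V s t‖ ≤ 1) (σ σ' : ℤ) :
    ‖pr V0 V σ σ'‖ ≤ 1 := by
  unfold pr
  calc _ ≤ ‖V0 σ (4 * σ')‖ * ‖V σ' (4 * σ)‖ := norm_inner_le_norm _ _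
    _ ≤ 1 * 1 := mul_le_mul (b0 _ _) (b _ _) (norm_nonneg _) zero_le_one
    _ = 1 := one_mul 1

theorem inner_MV {V0 V : ℤ → ℤ → A} (h0 : Cov V0) (hV : Cov V) (L : ℤ) (G : ℕ) (σ σ' w : ℤ) :
    ⟪V0 σ (4 * σ'), MV L G V (σ' - 3 * w) (4 * σ + 12 * w)⟫_ℂ =
      avg fun u : Fin G => pr V0 V (σ + 4 * w + 20 * ((u : ℕ) : ℤ) * L) (σ' + w + 5 * ((u : ℕ) : ℤ) * L) := by
  unfold MV
  rw [inner_avg_right]
  refine avg_congr fun u => ?_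
  have := pr_shift h0 hV σ σ' (w + 5 * ((u : ℕ) : ℤ) * L)
  have e1 : σ' - 3 * w - 15 * ((u : ℕ) : ℤ) * L = σ' - 3 * (w + 5 * ((u : ℕ) : ℤ) * L) := by ring
  have e2 : 4 * σ + 12 * w + 60 * ((u : ℕ) : ℤ) * L = 4 * σ + 12 * (w + 5 * ((u : ℕ) : ℤ) * L) := by ring
  rw [e1, e2, this]
  congr 1 <;> ring

theorem pr_stepP {V0 V : ℤ → ℤ → A} (h0 : Cov V0) (hV : Cov V) (ζ : ℂ) (L : ℤ) (G : ℕ) (σ σ' : ℤ) :
    pr V0 (stepP ζ L G V) σ σ' = (1 / 2 : ℂ) *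
      (conj ζ * (avg fun u : Fin G => pr V0 V (σ + 20 * ((u : ℕ) : ℤ) * L) (σ' + 5 * ((u : ℕ) : ℤ) * L)) +
       ζ * (avg fun u : Fin G => pr V0 V (σ + 4 * L + 20 * ((u : ℕ) : ℤ) * L)
          (σ' + L + 5 * ((u : ℕ) : ℤ) * L))) := by
  have i0 := inner_MV h0 hV L G σ σ' 0
  have i1 := inner_MV h0 hV L G σ σ' L
  simp only [sub_zero, mul_zero, add_zero] at i0
  unfold pr stepP at *
  rw [inner_smul_right, inner_add_right, inner_smul_right, inner_smul_right, i0, i1]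

theorem pr_stepM {V0 V : ℤ → ℤ → A} (h0 : Cov V0) (hV : Cov V) (ζ : ℂ) (L : ℤ) (G : ℕ) (σ σ' : ℤ) :
    pr V0 (stepM ζ L G V) σ σ' = (1 / 2 : ℂ) *
      (conj ζ * (avg fun u : Fin G => pr V0 V (σ - 4 * L + 20 * ((u : ℕ) : ℤ) * L)
          (σ' - L + 5 * ((u : ℕ) : ℤ) * L)) +
       ζ * (avg fun u : Fin G => pr V0 V (σ + 20 * ((u : ℕ) : ℤ) * L) (σ' + 5 * ((u : ℕ) : ℤ) * L))) := by
  have h1 := pr_shift h0 (cov_stepP (ζ := ζ) (L := L) (G := G) hV) σ σ' (-L)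
  have h2 : pr V0 (stepM ζ L G V) σ σ' = pr V0 (stepP ζ L G V) (σ + 4 * -L) (σ' + -L) := by
    rw [← h1]
    unfold pr stepM
    congr 2 <;> ring
  rw [h2, pr_stepP h0 hV]
  congr 2
  · congr 1
    refine avg_congr fun u => ?_
    congr 1; ring
  · congr 1
    refine avg_congr fun u => ?_
    congr 1 <;> ring

variable {R : Type} [Fintype R] [Nonempty R] {ρ : R → ℤ} {δ : ℝ}

/-- the average over the two windows -/
noncomputable def av2 (ρ : R → ℤ) (Φ : ℤ → ℤ → ℂ) : ℂ := avg fun r => avg fun r' => Φ (ρ r) (ρ r')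

theorem av2_shift_avg (hρ : NI ρ δ) (Φ : ℤ → ℤ → ℂ) (hΦ : ∀ n m, ‖Φ n m‖ ≤ 1) (G : ℕ) [NeZero G]
    (a : ℤ) (ha : |a| ≤ 1) :
    ‖av2 ρ (fun x x' => avg fun u : Fin G => Φ (x + (a + 4 * ((u : ℕ) : ℤ))) (x' + ((u : ℕ) : ℤ))) -
      av2 ρ Φ‖ ≤ 5 * G * δ := by
  have hδ := hρ.nonneg
  have e : av2 ρ (fun x x' => avg fun u : Fin G => Φ (x + (a + 4 * ((u : ℕ) : ℤ))) (x' + ((u : ℕ) : ℤ))) =
      avg fun u : Fin G => avg fun r => avg fun r' =>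
        Φ (ρ r + (a + 4 * ((u : ℕ) : ℤ))) (ρ r' + ((u : ℕ) : ℤ)) := by
    have f1 : ∀ r : R, (avg fun r' : R => avg fun u : Fin G =>
        Φ (ρ r + (a + 4 * ((u : ℕ) : ℤ))) (ρ r' + ((u : ℕ) : ℤ))) = avg fun u : Fin G => avg fun r' : R =>
        Φ (ρ r + (a + 4 * ((u : ℕ) : ℤ))) (ρ r' + ((u : ℕ) : ℤ)) := fun r => avg_comm _
    have f2 : (avg fun r : R => avg fun u : Fin G => avg fun r' : R =>
        Φ (ρ r + (a + 4 * ((u : ℕ) : ℤ))) (ρ r' + ((u : ℕ) : ℤ))) = avg fun u : Fin G => avg fun r : R =>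
        avg fun r' : R => Φ (ρ r + (a + 4 * ((u : ℕ) : ℤ))) (ρ r' + ((u : ℕ) : ℤ)) := avg_comm _
    exact (avg_congr f1).trans f2
  rw [e, ← avg_const (ι := Fin G) (av2 ρ Φ)]
  refine norm_avg_sub_le fun u => ?_
  have h1 := hρ.two Φ hΦ (a + 4 * ((u : ℕ) : ℤ)) ((u : ℕ) : ℤ)
  refine h1.trans ?_
  refine mul_le_mul_of_nonneg_right ?_ hδ
  have hu : ((u : ℕ) : ℝ) ≤ G - 1 := by
    have := u.2
    have h2 : (u : ℕ) + 1 ≤ G := this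
    have h3 : (((u : ℕ) + 1 : ℕ) : ℝ) ≤ G := by exact_mod_cast h2
    push_cast at h3; linarith
  have h4 : |((a + 4 * ((u : ℕ) : ℤ) : ℤ) : ℝ)| ≤ 1 + 4 * (u : ℕ) := by
    push_cast
    have ha' : |(a : ℝ)| ≤ 1 := by exact_mod_cast ha
    calc |(a : ℝ) + 4 * (u : ℕ)| ≤ |(a : ℝ)| + |4 * ((u : ℕ) : ℝ)| := abs_add_le _ _
      _ ≤ 1 + 4 * (u : ℕ) := by
        rw [abs_of_nonneg (show (0:ℝ) ≤ 4 * ((u : ℕ) : ℝ) by positivity)]; linarith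
  have h5 : |(((u : ℕ) : ℤ) : ℝ)| = (u : ℕ) := by simp
  rw [h5]
  linarith

/-- exchange of one level -/
theorem stepA (hρ : NI ρ δ) {ζ : ℂ} (hζ : ‖ζ‖ = 1) {G : ℕ} [NeZero G] {V0 V : ℤ → ℤ → A}
    (h0 : Cov V0) (hV : Cov V) (b0 : ∀ s t, ‖V0 s t‖ ≤ 1) (b : ∀ s t, ‖V s t‖ ≤ 1) (L s s' : ℤ) :
    ‖(conj ζ * av2 ρ (fun x x' => pr V0 V (s + (1 + 5 * x) * L) (s' + 5 * x' * L)) +
        ζ * av2 ρ (fun x x' => pr V0 V (s + 5 * x * L) (s' + (1 + 5 * x') * L))) -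
      (av2 ρ (fun x x' => pr V0 (stepP ζ L G V) (s + (1 + 5 * x) * L) (s' + 5 * x' * L)) +
        av2 ρ (fun x x' => pr V0 (stepM ζ L G V) (s + 5 * x * L) (s' + (1 + 5 * x') * L)))‖ ≤
      10 * G * δ := by
  set gP : ℤ → ℤ → ℂ := fun x x' => pr V0 V (s + (1 + 5 * x) * L) (s' + 5 * x' * L) with hgP
  set gM : ℤ → ℤ → ℂ := fun x x' => pr V0 V (s + 5 * x * L) (s' + (1 + 5 * x') * L) with hgM
  have bP : ∀ n m, ‖gP n m‖ ≤ 1 := fun n m => pr_norm b0 b _ _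
  have bM : ∀ n m, ‖gM n m‖ ≤ 1 := fun n m => pr_norm b0 b _ _
  have lin : ∀ (c : ℂ) (f : R → ℂ), c * avg f = avg fun r => c * f r := by
    intro c f
    unfold avg
    rw [Complex.real_smul, Complex.real_smul, ← Finset.mul_sum]; ring
  have e1 : av2 ρ (fun x x' => pr V0 (stepP ζ L G V) (s + (1 + 5 * x) * L) (s' + 5 * x' * L)) =
      (1 / 2 : ℂ) * (conj ζ * av2 ρ (fun x x' => avg fun u : Fin G => gP (x + (0 + 4 * ((u : ℕ) : ℤ))) (x' + ((u : ℕ) : ℤ))) +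
        ζ * av2 ρ (fun x x' => avg fun u : Fin G => gM (x + (1 + 4 * ((u : ℕ) : ℤ))) (x' + ((u : ℕ) : ℤ)))) := by
    unfold av2
    rw [lin, lin, ← avg_add, lin]
    refine avg_congr fun r => ?_
    rw [lin, lin, ← avg_add, lin]
    refine avg_congr fun r' => ?_
    beta_reduce
    rw [pr_stepP h0 hV]
    congr 2
    · congr 1
      refine avg_congr fun u => ?_
      simp only [hgP]
      congr 1 <;> ring
    · congr 1
      refine avg_congr fun u => ?_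
      simp only [hgM]
      congr 1 <;> ring
  have e2 : av2 ρ (fun x x' => pr V0 (stepM ζ L G V) (s + 5 * x * L) (s' + (1 + 5 * x') * L)) =
      (1 / 2 : ℂ) * (conj ζ * av2 ρ (fun x x' => avg fun u : Fin G => gP (x + (-1 + 4 * ((u : ℕ) : ℤ))) (x' + ((u : ℕ) : ℤ))) +
        ζ * av2 ρ (fun x x' => avg fun u : Fin G => gM (x + (0 + 4 * ((u : ℕ) : ℤ))) (x' + ((u : ℕ) : ℤ)))) := by
    unfold av2
    rw [lin, lin, ← avg_add, lin]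
    refine avg_congr fun r => ?_
    rw [lin, lin, ← avg_add, lin]
    refine avg_congr fun r' => ?_
    beta_reduce
    rw [pr_stepM h0 hV]
    congr 2
    · congr 1
      refine avg_congr fun u => ?_
      simp only [hgP]
      congr 1 <;> ring
    · congr 1
      refine avg_congr fun u => ?_
      simp only [hgM]
      congr 1 <;> ring
  have a1 := av2_shift_avg hρ gP bP G 0 (by norm_num)
  have a2 := av2_shift_avg hρ gM bM G 1 (by norm_num)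
  have a3 := av2_shift_avg hρ gP bP G (-1) (by norm_num)
  have a4 := av2_shift_avg hρ gM bM G 0 (by norm_num)
  rw [e1, e2]
  set x1 := av2 ρ (fun x x' => avg fun u : Fin G => gP (x + (0 + 4 * ((u : ℕ) : ℤ))) (x' + ((u : ℕ) : ℤ)))
  set x2 := av2 ρ (fun x x' => avg fun u : Fin G => gM (x + (1 + 4 * ((u : ℕ) : ℤ))) (x' + ((u : ℕ) : ℤ)))
  set x3 := av2 ρ (fun x x' => avg fun u : Fin G => gP (x + (-1 + 4 * ((u : ℕ) : ℤ))) (x' + ((u : ℕ) : ℤ)))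
  set x4 := av2 ρ (fun x x' => avg fun u : Fin G => gM (x + (0 + 4 * ((u : ℕ) : ℤ))) (x' + ((u : ℕ) : ℤ)))
  have e3 : (conj ζ * av2 ρ gP + ζ * av2 ρ gM) -
      ((1 / 2 : ℂ) * (conj ζ * x1 + ζ * x2) + (1 / 2 : ℂ) * (conj ζ * x3 + ζ * x4)) =
      -((1 / 2 : ℂ) * (conj ζ * (x1 - av2 ρ gP)) + (1 / 2 : ℂ) * (ζ * (x2 - av2 ρ gM)) +
      (1 / 2 : ℂ) * (conj ζ * (x3 - av2 ρ gP)) + (1 / 2 : ℂ) * (ζ * (x4 - av2 ρ gM))) := by ring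
  rw [e3, norm_neg]
  have hn : ∀ (w y : ℂ), ‖w‖ = 1 → ‖y‖ ≤ 5 * G * δ → ‖(1 / 2 : ℂ) * (w * y)‖ ≤ (1 / 2) * (5 * G * δ) := by
    intro w y hw hy
    rw [norm_mul, norm_mul, hw, one_mul]
    have h4 : ‖(1 / 2 : ℂ)‖ = 1 / 2 := by norm_num
    rw [h4]
    exact mul_le_mul_of_nonneg_left hy (by norm_num)
  have hc : ‖conj ζ‖ = 1 := by rw [RCLike.norm_conj]; exact hζ
  calc _ ≤ ‖(1 / 2 : ℂ) * (conj ζ * (x1 - av2 ρ gP))‖ + ‖(1 / 2 : ℂ) * (ζ * (x2 - av2 ρ gM))‖ +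
      ‖(1 / 2 : ℂ) * (conj ζ * (x3 - av2 ρ gP))‖ + ‖(1 / 2 : ℂ) * (ζ * (x4 - av2 ρ gM))‖ :=
        norm_add₄_le
    _ ≤ (1 / 2) * (5 * G * δ) + (1 / 2) * (5 * G * δ) + (1 / 2) * (5 * G * δ) + (1 / 2) * (5 * G * δ) := by
        gcongr
        · exact hn _ _ hc a1
        · exact hn _ _ hζ a2
        · exact hn _ _ hc a3
        · exact hn _ _ hζ a4
    _ = 10 * G * δ := by ring

end Pool.Agent.H887R3.UC
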