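import Pool.Agent.H887R3.UC.Exch

/-! # MP_26bfe6_an: the induction over the levels, pattern `(1, 4)`, base five (helper887);
adapted from `Pool.Agent.Helper757.TCDecayF` -/

open scoped ComplexConjugate InnerProductSpace

namespace Pool.Agent.H887R3.UC

open Pool.TC Pool.TC.Dec

variable {A : Type} [CommRing A] [StarRing A] [Algebra ℂ A] [StarModule ℂ A] [PSys A]

noncomputable def V0 (f₁ f₂ : A) (s t : ℤ) : A := PSys.tau s f₁ * PSys.tau t (star f₂)

theorem cov_V0 (f₁ f₂ : A) : Cov (V0 f₁ f₂) := by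
  intro s t x
  unfold V0
  rw [map_mul, tau_tau, tau_tau, add_comm s x, add_comm t x]

theorem norm_V0 {f₁ f₂ : A} (h₁ : f₁ ∈ (PSys.ball : Set A)) (h₂ : f₂ ∈ (PSys.ball : Set A)) (s t : ℤ) :
    ‖V0 f₁ f₂ s t‖ ≤ 1 :=
  norm_ball (PSys.mul_mem _ (PSys.tau_mem _ _ h₁) _ (PSys.tau_mem _ _ (PSys.star_mem _ h₂)))

/-- the phase of a bit -/
noncomputable def ph (ζ : ℂ) (d : Bool) : ℂ := if d then ζ else 1

/-- the value of a bit -/
def bv (d : Bool) : ℤ := if d then 1 else 0

variable {R : ℕ → Type} [∀ n, Fintype (R n)] [∀ n, Nonempty (R n)]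

/-- weighted average over the first `n` levels, started at `c` -/
noncomputable def Aw (L : ℕ → ℤ) (ρ : ∀ n, R n → ℤ) (ζ : ℂ) (f₁ f₂ : A) : ℕ → ℤ → A
  | 0, c => PSys.tau c f₁ * PSys.tau (4 * c) f₂
  | (n + 1), c => avg fun d : Bool => avg fun r : R n =>
      ph ζ d • Aw L ρ ζ f₁ f₂ n (c + (bv d + 5 * ρ n r) * L n)

theorem inner_Aw_zero (L : ℕ → ℤ) (ρ : ∀ n, R n → ℤ) (ζ : ℂ) (f₁ f₂ : A) (c c' : ℤ) :
    ⟪Aw L ρ ζ f₁ f₂ 0 c, Aw L ρ ζ f₁ f₂ 0 c'⟫_ℂ = pr (V0 f₁ f₂) (V0 f₁ f₂) c c' := by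
  unfold pr V0 Aw
  rw [inner_def, inner_def]
  congr 1
  simp only [star_mul, map_star, star_star]
  ring

theorem inner_Aw_succ (L : ℕ → ℤ) (ρ : ∀ n, R n → ℤ) (ζ : ℂ) (hζ : conj ζ * ζ = 1) (f₁ f₂ : A) (n : ℕ)
    (c c' : ℤ) (F : ℤ → ℤ → ℂ) (hF : ∀ x y, F x y = ⟪Aw L ρ ζ f₁ f₂ n x, Aw L ρ ζ f₁ f₂ n y⟫_ℂ) :
    ⟪Aw L ρ ζ f₁ f₂ (n + 1) c, Aw L ρ ζ f₁ f₂ (n + 1) c'⟫_ℂ = (1 / 4 : ℂ) *
      (av2 (ρ n) (fun x x' => F (c + 5 * x * L n) (c' + 5 * x' * L n)) +
       av2 (ρ n) (fun x x' => F (c + (1 + 5 * x) * L n) (c' + (1 + 5 * x') * L n)) +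
       (conj ζ * av2 (ρ n) (fun x x' => F (c + (1 + 5 * x) * L n) (c' + 5 * x' * L n)) +
       ζ * av2 (ρ n) (fun x x' => F (c + 5 * x * L n) (c' + (1 + 5 * x') * L n)))) := by
  have lin : ∀ {κ : Type} [Fintype κ] (c : ℂ) (f : κ → ℂ), c * avg f = avg fun r => c * f r := by
    intro κ _ c f
    unfold avg
    rw [Complex.real_smul, Complex.real_smul, ← Finset.mul_sum]; ring
  have e : ∀ d d' : Bool, ⟪avg fun r : R n => ph ζ d • Aw L ρ ζ f₁ f₂ n (c + (bv d + 5 * ρ n r) * L n),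
      avg fun r : R n => ph ζ d' • Aw L ρ ζ f₁ f₂ n (c' + (bv d' + 5 * ρ n r) * L n)⟫_ℂ =
      conj (ph ζ d) * ph ζ d' * av2 (ρ n) (fun x x' => F (c + (bv d + 5 * x) * L n)
        (c' + (bv d' + 5 * x') * L n)) := by
    intro d d'
    rw [inner_avg_left]
    unfold av2
    rw [lin]
    refine avg_congr fun r => ?_
    rw [inner_avg_right, lin]
    refine avg_congr fun r' => ?_
    beta_reduce
    rw [inner_smul_left, inner_smul_right, hF]
    ring
  have hA : ∀ c : ℤ, Aw L ρ ζ f₁ f₂ (n + 1) c = avg fun d : Bool => avg fun r : R n =>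
      ph ζ d • Aw L ρ ζ f₁ f₂ n (c + (bv d + 5 * ρ n r) * L n) := fun c => rfl
  rw [hA, hA, inner_avg_left]
  have h2 : ∀ d : Bool, ⟪avg fun r : R n => ph ζ d • Aw L ρ ζ f₁ f₂ n (c + (bv d + 5 * ρ n r) * L n),
      avg fun d' : Bool => avg fun r : R n => ph ζ d' • Aw L ρ ζ f₁ f₂ n (c' + (bv d' + 5 * ρ n r) * L n)⟫_ℂ =
      avg fun d' : Bool => conj (ph ζ d) * ph ζ d' * av2 (ρ n) (fun x x' => F (c + (bv d + 5 * x) * L n)
        (c' + (bv d' + 5 * x') * L n)) := by
    intro d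
    rw [inner_avg_right]
    exact avg_congr fun d' => e d d'
  rw [avg_congr h2, avg_bool, avg_bool, avg_bool]
  simp only [ph, bv, if_true, if_false, Bool.false_eq_true, map_one, one_mul, mul_one, zero_add, hζ,
    Complex.real_smul]
  push_cast
  ring

theorem avg5 {Ω R : Type} [Fintype Ω] [Fintype R] {W : Type*} [AddCommGroup W] [Module ℝ W]
    (g : Ω × Bool × Bool × R × R → W) :
    avg g = avg fun ω => (1 / 4 : ℝ) • ((avg fun r => avg fun r' => g (ω, false, false, r, r')) +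
      (avg fun r => avg fun r' => g (ω, true, true, r, r')) +
      ((avg fun r => avg fun r' => g (ω, true, false, r, r')) +
      (avg fun r => avg fun r' => g (ω, false, true, r, r')))) := by
  rw [avg_prod]
  refine avg_congr fun ω => ?_
  rw [avg_prod, avg_bool, avg_prod, avg_prod, avg_bool, avg_bool, avg_prod, avg_prod, avg_prod, avg_prod]
  module

theorem state_exists {δ : ℝ} (L : ℕ → ℤ) (ρ : ∀ n, R n → ℤ) (hρ : ∀ n, NI (ρ n) δ) {ζ : ℂ} {γ : ℝ}
    (hζ : GoodPh ζ γ) {f₁ f₂ : A} (h₁ : f₁ ∈ (PSys.ball : Set A)) (h₂ : f₂ ∈ (PSys.ball : Set A))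
    (G : ℕ) [NeZero G] (n : ℕ) :
    ∃ (Ω : Type) (_ : Fintype Ω) (_ : Nonempty Ω) (sg sg' : Ω → ℤ) (V : Ω → ℤ → ℤ → A),
      (∀ ω, Cov (V ω)) ∧ (∀ ω s t, ‖V ω s t‖ ≤ 1) ∧
      (∀ c c', ‖⟪Aw L ρ ζ f₁ f₂ n c, Aw L ρ ζ f₁ f₂ n c'⟫_ℂ -
        avg fun ω => pr (V0 f₁ f₂) (V ω) (sg ω + c) (sg' ω + c')‖ ≤ n * (3 * G * δ)) ∧
      (∀ S T, (avg fun ω => ‖V ω (sg' ω + S) (4 * sg ω + T)‖ ^ 2) ≤
        ((3 + γ) / 4) ^ n + n * ((15 * G + 9) * δ + 1 / G)) := by
  have hδ := (hρ 0).nonneg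
  have hG : (0 : ℝ) < G := by exact_mod_cast Nat.pos_of_ne_zero (NeZero.ne G)
  induction n with
  | zero =>
    refine ⟨Unit, inferInstance, inferInstance, fun _ => 0, fun _ => 0, fun _ => V0 f₁ f₂,
      fun _ => cov_V0 _ _, fun _ => norm_V0 h₁ h₂, ?_, ?_⟩
    · intro c c'
      rw [inner_Aw_zero, avg_const]
      simp
    · intro S T
      rw [avg_const]
      simp only [pow_zero, CharP.cast_eq_zero, zero_mul, add_zero]
      exact pow_le_one₀ (norm_nonneg _) (norm_V0 h₁ h₂ _ _)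
  | succ n ih =>
    obtain ⟨Ω, i1, i2, sg, sg', V, hV, hb, hi, hii⟩ := ih
    let V' : Ω × Bool × Bool × R n × R n → ℤ → ℤ → A := fun y =>
      if y.2.1 = y.2.2.1 then V y.1 else if y.2.1 = true then stepP ζ (L n) G (V y.1)
        else stepM ζ (L n) G (V y.1)
    refine ⟨Ω × Bool × Bool × R n × R n, inferInstance, inferInstance,
      fun y => sg y.1 + (bv y.2.1 + 5 * ρ n y.2.2.2.1) * L n,
      fun y => sg' y.1 + (bv y.2.2.1 + 5 * ρ n y.2.2.2.2) * L n, V', ?_, ?_, ?_, ?_⟩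
    · intro y
      simp only [V']
      split_ifs
      · exact hV _
      · exact cov_stepP (hV _)
      · exact cov_stepM (hV _)
    · intro y s t
      simp only [V']
      split_ifs
      · exact hb _ _ _
      · exact norm_stepP_le hζ.norm (hb _) _ _
      · exact norm_stepM_le hζ.norm (hb _) _ _
    · intro c c'
      set F : ℤ → ℤ → ℂ := fun x y => ⟪Aw L ρ ζ f₁ f₂ n x, Aw L ρ ζ f₁ f₂ n y⟫_ℂ with hF
      rw [inner_Aw_succ L ρ ζ hζ.unit f₁ f₂ n c c' F (fun x y => rfl), avg5]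
      set H : ℤ → ℤ → ℂ := fun x y => avg fun ω => pr (V0 f₁ f₂) (V ω) (sg ω + x) (sg' ω + y) with hH
      have hFH : ∀ x y, ‖F x y - H x y‖ ≤ n * (3 * G * δ) := fun x y => hi x y
      have hav : ∀ Φ Ψ : ℤ → ℤ → ℤ × ℤ, Φ = Ψ → ‖av2 (ρ n) (fun x x' => F (Φ x x').1 (Φ x x').2) -
          av2 (ρ n) (fun x x' => H (Φ x x').1 (Φ x x').2)‖ ≤ n * (3 * G * δ) := by
        intro Φ _ _
        unfold av2
        exact norm_avg_sub_le fun r => norm_avg_sub_le fun r' => hFH _ _
      have k00 := hav (fun x x' => (c + 5 * x * L n, c' + 5 * x' * L n)) _ rfl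
      have k11 := hav (fun x x' => (c + (1 + 5 * x) * L n, c' + (1 + 5 * x') * L n)) _ rfl
      have k10 := hav (fun x x' => (c + (1 + 5 * x) * L n, c' + 5 * x' * L n)) _ rfl
      have k01 := hav (fun x x' => (c + 5 * x * L n, c' + (1 + 5 * x') * L n)) _ rfl
      simp only at k00 k11 k10 k01
      -- the middle term
      have lin : ∀ {κ : Type} [Fintype κ] (c : ℂ) (f : κ → ℂ), c * avg f = avg fun r => c * f r := by
        intro κ _ c f
        unfold avg
        rw [Complex.real_smul, Complex.real_smul, ← Finset.mul_sum]; ring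
      have swap : ∀ Φ : ℤ → ℤ → ℤ × ℤ, av2 (ρ n) (fun x x' => H (Φ x x').1 (Φ x x').2) =
          avg fun ω => av2 (ρ n) (fun x x' => pr (V0 f₁ f₂) (V ω) (sg ω + (Φ x x').1) (sg' ω + (Φ x x').2)) := by
        intro Φ
        unfold av2
        simp only [hH]
        have g1 : ∀ r : R n, (avg fun r' : R n => avg fun ω => pr (V0 f₁ f₂) (V ω)
            (sg ω + (Φ (ρ n r) (ρ n r')).1) (sg' ω + (Φ (ρ n r) (ρ n r')).2)) =
            avg fun ω => avg fun r' : R n => pr (V0 f₁ f₂) (V ω)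
            (sg ω + (Φ (ρ n r) (ρ n r')).1) (sg' ω + (Φ (ρ n r) (ρ n r')).2) := fun r => avg_comm _
        rw [avg_congr g1]
        exact avg_comm _
      have w00 := swap (fun x x' => (c + 5 * x * L n, c' + 5 * x' * L n))
      have w11 := swap (fun x x' => (c + (1 + 5 * x) * L n, c' + (1 + 5 * x') * L n))
      have w10 := swap (fun x x' => (c + (1 + 5 * x) * L n, c' + 5 * x' * L n))
      have w01 := swap (fun x x' => (c + 5 * x * L n, c' + (1 + 5 * x') * L n))
      simp only at w00 w11 w10 w01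
      set m00 := av2 (ρ n) (fun x x' => H (c + 5 * x * L n) (c' + 5 * x' * L n))
      set m11 := av2 (ρ n) (fun x x' => H (c + (1 + 5 * x) * L n) (c' + (1 + 5 * x') * L n))
      set m10 := av2 (ρ n) (fun x x' => H (c + (1 + 5 * x) * L n) (c' + 5 * x' * L n))
      set m01 := av2 (ρ n) (fun x x' => H (c + 5 * x * L n) (c' + (1 + 5 * x') * L n))
      have hmid : (1 / 4 : ℂ) * (m00 + m11 + (conj ζ * m10 + ζ * m01)) = avg fun ω => (1 / 4 : ℂ) *
          (av2 (ρ n) (fun x x' => pr (V0 f₁ f₂) (V ω) (sg ω + (c + 5 * x * L n)) (sg' ω + (c' + 5 * x' * L n))) +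
           av2 (ρ n) (fun x x' => pr (V0 f₁ f₂) (V ω) (sg ω + (c + (1 + 5 * x) * L n)) (sg' ω + (c' + (1 + 5 * x') * L n))) +
           (conj ζ * av2 (ρ n) (fun x x' => pr (V0 f₁ f₂) (V ω) (sg ω + (c + (1 + 5 * x) * L n)) (sg' ω + (c' + 5 * x' * L n))) +
            ζ * av2 (ρ n) (fun x x' => pr (V0 f₁ f₂) (V ω) (sg ω + (c + 5 * x * L n)) (sg' ω + (c' + (1 + 5 * x') * L n))))) := by
        rw [w00, w11, w10, w01, lin, lin, ← avg_add, ← avg_add, ← avg_add, lin]
      have d1 : ‖(1 / 4 : ℂ) *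
          (av2 (ρ n) (fun x x' => F (c + 5 * x * L n) (c' + 5 * x' * L n)) +
           av2 (ρ n) (fun x x' => F (c + (1 + 5 * x) * L n) (c' + (1 + 5 * x') * L n)) +
           (conj ζ * av2 (ρ n) (fun x x' => F (c + (1 + 5 * x) * L n) (c' + 5 * x' * L n)) +
           ζ * av2 (ρ n) (fun x x' => F (c + 5 * x * L n) (c' + (1 + 5 * x') * L n)))) -
           (1 / 4 : ℂ) * (m00 + m11 + (conj ζ * m10 + ζ * m01))‖ ≤ n * (3 * G * δ) := by
        set F00 := av2 (ρ n) (fun x x' => F (c + 5 * x * L n) (c' + 5 * x' * L n))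
        set F11 := av2 (ρ n) (fun x x' => F (c + (1 + 5 * x) * L n) (c' + (1 + 5 * x') * L n))
        set F10 := av2 (ρ n) (fun x x' => F (c + (1 + 5 * x) * L n) (c' + 5 * x' * L n))
        set F01 := av2 (ρ n) (fun x x' => F (c + 5 * x * L n) (c' + (1 + 5 * x') * L n))
        have e : (1 / 4 : ℂ) * (F00 + F11 + (conj ζ * F10 + ζ * F01)) -
            (1 / 4 : ℂ) * (m00 + m11 + (conj ζ * m10 + ζ * m01)) =
            (1 / 4 : ℂ) * ((F00 - m00) + (F11 - m11) + conj ζ * (F10 - m10) + ζ * (F01 - m01)) := by ring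
        rw [e, norm_mul]
        have h4 : ‖(1 / 4 : ℂ)‖ = 1 / 4 := by norm_num
        have hc : ‖conj ζ‖ = 1 := by rw [RCLike.norm_conj]; exact hζ.norm
        have k10' : ‖conj ζ * (F10 - m10)‖ ≤ n * (3 * G * δ) := by rw [norm_mul, hc, one_mul]; exact k10
        have k01' : ‖ζ * (F01 - m01)‖ ≤ n * (3 * G * δ) := by rw [norm_mul, hζ.norm, one_mul]; exact k01
        have k := norm_add₄_le (a := F00 - m00) (b := F11 - m11) (c := conj ζ * (F10 - m10)) (d := ζ * (F01 - m01))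
        rw [h4]
        linarith
      have d2 : ‖(1 / 4 : ℂ) * (m00 + m11 + (conj ζ * m10 + ζ * m01)) - avg fun ω => (1 / 4 : ℝ) •
          ((avg fun r => avg fun r' => pr (V0 f₁ f₂) (V' (ω, false, false, r, r')) (sg ω + (bv false + 5 * ρ n r) * L n + c) (sg' ω + (bv false + 5 * ρ n r') * L n + c')) +
           (avg fun r => avg fun r' => pr (V0 f₁ f₂) (V' (ω, true, true, r, r')) (sg ω + (bv true + 5 * ρ n r) * L n + c) (sg' ω + (bv true + 5 * ρ n r') * L n + c')) +
           ((avg fun r => avg fun r' => pr (V0 f₁ f₂) (V' (ω, true, false, r, r')) (sg ω + (bv true + 5 * ρ n r) * L n + c) (sg' ω + (bv false + 5 * ρ n r') * L n + c')) +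
           (avg fun r => avg fun r' => pr (V0 f₁ f₂) (V' (ω, false, true, r, r')) (sg ω + (bv false + 5 * ρ n r) * L n + c) (sg' ω + (bv true + 5 * ρ n r') * L n + c'))))‖ ≤ 3 * G * δ := by
        rw [hmid]
        refine norm_avg_sub_le fun ω => ?_
        have v00 : ∀ r r', V' (ω, false, false, r, r') = V ω := fun r r' => by simp [V']
        have v11 : ∀ r r', V' (ω, true, true, r, r') = V ω := fun r r' => by simp [V']
        have v10 : ∀ r r', V' (ω, true, false, r, r') = stepP ζ (L n) G (V ω) := fun r r' => by simp [V']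
        have v01 : ∀ r r', V' (ω, false, true, r, r') = stepM ζ (L n) G (V ω) := fun r r' => by simp [V']
        have sA := stepA (hρ n) hζ.norm (G := G) (cov_V0 f₁ f₂) (hV ω) (norm_V0 h₁ h₂) (hb ω) (L n)
          (sg ω + c) (sg' ω + c')
        simp only [v00, v11, v10, v01, bv, if_true, if_false, Bool.false_eq_true]
        have t00 : (avg fun r => avg fun r' => pr (V0 f₁ f₂) (V ω) (sg ω + (0 + 5 * ρ n r) * L n + c)
            (sg' ω + (0 + 5 * ρ n r') * L n + c')) = av2 (ρ n) (fun x x' => pr (V0 f₁ f₂) (V ω)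
            (sg ω + (c + 5 * x * L n)) (sg' ω + (c' + 5 * x' * L n))) :=
          avg_congr fun r => avg_congr fun r' => by congr 1 <;> ring
        have t11 : (avg fun r => avg fun r' => pr (V0 f₁ f₂) (V ω) (sg ω + (1 + 5 * ρ n r) * L n + c)
            (sg' ω + (1 + 5 * ρ n r') * L n + c')) = av2 (ρ n) (fun x x' => pr (V0 f₁ f₂) (V ω)
            (sg ω + (c + (1 + 5 * x) * L n)) (sg' ω + (c' + (1 + 5 * x') * L n))) :=
          avg_congr fun r => avg_congr fun r' => by congr 1 <;> ring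
        have t10 : (avg fun r => avg fun r' => pr (V0 f₁ f₂) (stepP ζ (L n) G (V ω)) (sg ω + (1 + 5 * ρ n r) * L n + c)
            (sg' ω + (0 + 5 * ρ n r') * L n + c')) = av2 (ρ n) (fun x x' => pr (V0 f₁ f₂) (stepP ζ (L n) G (V ω))
            (sg ω + c + (1 + 5 * x) * L n) (sg' ω + c' + 5 * x' * L n)) :=
          avg_congr fun r => avg_congr fun r' => by congr 1 <;> ring
        have t01 : (avg fun r => avg fun r' => pr (V0 f₁ f₂) (stepM ζ (L n) G (V ω)) (sg ω + (0 + 5 * ρ n r) * L n + c)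
            (sg' ω + (1 + 5 * ρ n r') * L n + c')) = av2 (ρ n) (fun x x' => pr (V0 f₁ f₂) (stepM ζ (L n) G (V ω))
            (sg ω + c + 5 * x * L n) (sg' ω + c' + (1 + 5 * x') * L n)) :=
          avg_congr fun r => avg_congr fun r' => by congr 1 <;> ring
        have q10 : av2 (ρ n) (fun x x' => pr (V0 f₁ f₂) (V ω) (sg ω + (c + (1 + 5 * x) * L n)) (sg' ω + (c' + 5 * x' * L n))) =
            av2 (ρ n) (fun x x' => pr (V0 f₁ f₂) (V ω) (sg ω + c + (1 + 5 * x) * L n) (sg' ω + c' + 5 * x' * L n)) :=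
          avg_congr fun r => avg_congr fun r' => by ring_nf
        have q01 : av2 (ρ n) (fun x x' => pr (V0 f₁ f₂) (V ω) (sg ω + (c + 5 * x * L n)) (sg' ω + (c' + (1 + 5 * x') * L n))) =
            av2 (ρ n) (fun x x' => pr (V0 f₁ f₂) (V ω) (sg ω + c + 5 * x * L n) (sg' ω + c' + (1 + 5 * x') * L n)) :=
          avg_congr fun r => avg_congr fun r' => by ring_nf
        rw [t00, t11, t10, t01, q10, q01]
        set z00 := av2 (ρ n) (fun x x' => pr (V0 f₁ f₂) (V ω) (sg ω + (c + 5 * x * L n)) (sg' ω + (c' + 5 * x' * L n)))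
        set z11 := av2 (ρ n) (fun x x' => pr (V0 f₁ f₂) (V ω) (sg ω + (c + (1 + 5 * x) * L n)) (sg' ω + (c' + (1 + 5 * x') * L n)))
        set z10 := av2 (ρ n) (fun x x' => pr (V0 f₁ f₂) (V ω) (sg ω + c + (1 + 5 * x) * L n) (sg' ω + c' + 5 * x' * L n))
        set z01 := av2 (ρ n) (fun x x' => pr (V0 f₁ f₂) (V ω) (sg ω + c + 5 * x * L n) (sg' ω + c' + (1 + 5 * x') * L n))
        set y10 := av2 (ρ n) (fun x x' => pr (V0 f₁ f₂) (stepP ζ (L n) G (V ω)) (sg ω + c + (1 + 5 * x) * L n) (sg' ω + c' + 5 * x' * L n))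
        set y01 := av2 (ρ n) (fun x x' => pr (V0 f₁ f₂) (stepM ζ (L n) G (V ω)) (sg ω + c + 5 * x * L n) (sg' ω + c' + (1 + 5 * x') * L n))
        have e : (1 / 4 : ℂ) * (z00 + z11 + (conj ζ * z10 + ζ * z01)) - (1 / 4 : ℝ) • (z00 + z11 + (y10 + y01)) =
            (1 / 4 : ℂ) * ((conj ζ * z10 + ζ * z01) - (y10 + y01)) := by
          rw [Complex.real_smul]; push_cast; ring
        rw [e, norm_mul]
        have h4 : ‖(1 / 4 : ℂ)‖ = 1 / 4 := by norm_num
        rw [h4]
        have hp : 0 ≤ (G : ℝ) * δ := by positivity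
        calc (1 / 4 : ℝ) * _ ≤ (1 / 4) * (10 * G * δ) := by gcongr
          _ ≤ 3 * G * δ := by nlinarith
      calc _ ≤ n * (3 * G * δ) + 3 * G * δ := by
            refine (norm_sub_le_norm_sub_add_norm_sub _ ((1 / 4 : ℂ) * (m00 + m11 + (conj ζ * m10 + ζ * m01))) _).trans ?_
            exact add_le_add d1 d2
        _ = _ := by push_cast; ring
    · intro S T
      rw [avg5]
      have v00 : ∀ ω r r', V' (ω, false, false, r, r') = V ω := fun ω r r' => by simp [V']
      have v11 : ∀ ω r r', V' (ω, true, true, r, r') = V ω := fun ω r r' => by simp [V']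
      have v10 : ∀ ω r r', V' (ω, true, false, r, r') = stepP ζ (L n) G (V ω) := fun ω r r' => by simp [V']
      have v01 : ∀ ω r r', V' (ω, false, true, r, r') = stepM ζ (L n) G (V ω) := fun ω r r' => by simp [V']
      simp only [v00, v11, v10, v01, bv, if_true, if_false, Bool.false_eq_true]
      set B : ℝ := ((3 + γ) / 4) ^ n + n * ((15 * G + 9) * δ + 1 / G) with hB
      set er : ℝ := (15 * G + 9) * δ + 1 / G with her
      have her0 : 0 ≤ er := by positivity
      have hg0 : 0 ≤ (1 + γ) / 2 := by linarith [hζ.gt]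
      -- averages of `V`
      have gen : ∀ (Φ Ψ : ℤ → ℤ → ℤ), (avg fun ω => avg fun r => avg fun r' =>
          ‖V ω (sg' ω + Φ (ρ n r) (ρ n r')) (4 * sg ω + Ψ (ρ n r) (ρ n r'))‖ ^ 2) ≤ B := by
        intro Φ Ψ
        have g1 : (avg fun ω => avg fun r => avg fun r' =>
            ‖V ω (sg' ω + Φ (ρ n r) (ρ n r')) (4 * sg ω + Ψ (ρ n r) (ρ n r'))‖ ^ 2) =
            avg fun r => avg fun r' => avg fun ω =>
            ‖V ω (sg' ω + Φ (ρ n r) (ρ n r')) (4 * sg ω + Ψ (ρ n r) (ρ n r'))‖ ^ 2 := by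
          refine (avg_comm _).trans (avg_congr fun r => avg_comm _)
        rw [g1]
        exact avg_le_of fun r => avg_le_of fun r' => hii _ _
      have t00 : (avg fun ω => avg fun r => avg fun r' => ‖V ω (sg' ω + (0 + 5 * ρ n r') * L n + S)
          (4 * (sg ω + (0 + 5 * ρ n r) * L n) + T)‖ ^ 2) ≤ B := by
        refine le_trans (le_of_eq ?_) (gen (fun _ x' => 5 * x' * L n + S) (fun x _ => 20 * x * L n + T))
        refine avg_congr fun ω => avg_congr fun r => avg_congr fun r' => ?_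
        congr 3 <;> ring
      have t11 : (avg fun ω => avg fun r => avg fun r' => ‖V ω (sg' ω + (1 + 5 * ρ n r') * L n + S)
          (4 * (sg ω + (1 + 5 * ρ n r) * L n) + T)‖ ^ 2) ≤ B := by
        refine le_trans (le_of_eq ?_) (gen (fun _ x' => (1 + 5 * x') * L n + S) (fun x _ => 4 * L n + 20 * x * L n + T))
        refine avg_congr fun ω => avg_congr fun r => avg_congr fun r' => ?_
        congr 3 <;> ring
      have t10 : (avg fun ω => avg fun r => avg fun r' => ‖stepP ζ (L n) G (V ω) (sg' ω + (0 + 5 * ρ n r') * L n + S)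
          (4 * (sg ω + (1 + 5 * ρ n r) * L n) + T)‖ ^ 2) ≤ ((1 + γ) / 2) * B + er := by
        calc _ ≤ avg fun ω => (((1 + γ) / 2) * (avg fun r => avg fun r' => ‖V ω ((sg' ω + S) + 5 * ρ n r' * L n)
              ((4 * sg ω + 4 * L n + T) + 20 * ρ n r * L n)‖ ^ 2) + er) := by
              refine avg_le_avg fun ω => ?_
              have h1 := stepB (hρ n) hζ (G := G) (hV ω) (hb ω) (L n) (sg' ω + S) (4 * sg ω + 4 * L n + T)
              refine le_trans (le_of_eq ?_) (h1.trans ?_)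
              · refine avg_congr fun r => avg_congr fun r' => ?_
                congr 3 <;> ring
              · have : (15 * (G:ℝ) + 6) * δ ≤ (15 * G + 9) * δ := by nlinarith
                linarith
          _ = ((1 + γ) / 2) * (avg fun ω => avg fun r => avg fun r' => ‖V ω ((sg' ω + S) + 5 * ρ n r' * L n)
              ((4 * sg ω + 4 * L n + T) + 20 * ρ n r * L n)‖ ^ 2) + er := by
              rw [avg_add, avg_mul_left, avg_const]
          _ ≤ ((1 + γ) / 2) * B + er := by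
              have h2 := gen (fun _ x' => S + 5 * x' * L n) (fun x _ => 4 * L n + T + 20 * x * L n)
              have h3 : (avg fun ω => avg fun r => avg fun r' => ‖V ω ((sg' ω + S) + 5 * ρ n r' * L n)
                  ((4 * sg ω + 4 * L n + T) + 20 * ρ n r * L n)‖ ^ 2) ≤ B := by
                refine le_trans (le_of_eq ?_) h2
                refine avg_congr fun ω => avg_congr fun r => avg_congr fun r' => ?_
                congr 3 <;> ring
              have := mul_le_mul_of_nonneg_left h3 hg0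
              linarith
      have t01 : (avg fun ω => avg fun r => avg fun r' => ‖stepM ζ (L n) G (V ω) (sg' ω + (1 + 5 * ρ n r') * L n + S)
          (4 * (sg ω + (0 + 5 * ρ n r) * L n) + T)‖ ^ 2) ≤ ((1 + γ) / 2) * B + er := by
        calc _ ≤ avg fun ω => (((1 + γ) / 2) * (avg fun r => avg fun r' => ‖V ω ((sg' ω + L n + S) + 5 * ρ n r' * L n)
              ((4 * sg ω + T) + 20 * ρ n r * L n)‖ ^ 2) + er) := by
              refine avg_le_avg fun ω => ?_
              have h1 := stepB' (hρ n) hζ (G := G) (hV ω) (hb ω) (L n) (sg' ω + L n + S) (4 * sg ω + T)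
              refine le_trans (le_of_eq ?_) h1
              refine avg_congr fun r => avg_congr fun r' => ?_
              congr 3 <;> ring
          _ = ((1 + γ) / 2) * (avg fun ω => avg fun r => avg fun r' => ‖V ω ((sg' ω + L n + S) + 5 * ρ n r' * L n)
              ((4 * sg ω + T) + 20 * ρ n r * L n)‖ ^ 2) + er := by
              rw [avg_add, avg_mul_left, avg_const]
          _ ≤ ((1 + γ) / 2) * B + er := by
              have h2 := gen (fun _ x' => L n + S + 5 * x' * L n) (fun x _ => T + 20 * x * L n)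
              have h3 : (avg fun ω => avg fun r => avg fun r' => ‖V ω ((sg' ω + L n + S) + 5 * ρ n r' * L n)
                  ((4 * sg ω + T) + 20 * ρ n r * L n)‖ ^ 2) ≤ B := by
                refine le_trans (le_of_eq ?_) h2
                refine avg_congr fun ω => avg_congr fun r => avg_congr fun r' => ?_
                congr 3 <;> ring
              have := mul_le_mul_of_nonneg_left h3 hg0
              linarith
      have hsplit : ∀ (a b c d : Ω → ℝ), (avg fun ω => (1 / 4 : ℝ) • (a ω + b ω + (c ω + d ω))) =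
          (1 / 4) * (avg a + avg b + (avg c + avg d)) := by
        intro a b c d
        simp only [smul_eq_mul]
        rw [avg_mul_left, avg_add, avg_add, avg_add]
      rw [hsplit]
      have hpow : ((3 + γ) / 4) ^ (n + 1) = ((3 + γ) / 4) ^ n * ((3 + γ) / 4) := pow_succ _ _
      have hg1 : (3 + γ) / 4 ≤ 1 := by linarith [hζ.lt1]
      have hBn : ((3 + γ) / 4) * B ≤ ((3 + γ) / 4) ^ (n + 1) + n * er := by
        rw [hB, hpow]
        have h5 : 0 ≤ (n : ℝ) * er := by positivity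
        nlinarith
      push_cast
      nlinarith

end Pool.Agent.H887R3.UC
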