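import Mathlib

/-! # MP_26bfe6_an: reduction of a system to a shift system in `Type` (helper887) -/

open MeasureTheory Filter Topology

set_option autoImplicit false

namespace Pool.Agent.H887R3.UC

universe u

section
variable {X : Type u} [MeasurableSpace X]

theorem perm_meas' (T : X ≃ᵐ X) (k : ℤ) :
    Measurable ((T.toEquiv : Equiv.Perm X) ^ k) := by
  have hn : ∀ (S : X ≃ᵐ X) (n : ℕ), Measurable ((S.toEquiv : Equiv.Perm X) ^ n) := by
    intro S n
    induction n with
    | zero => exact measurable_id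
    | succ n ih =>
      rw [pow_succ]
      exact ih.comp S.measurable
  obtain ⟨n, rfl | rfl⟩ := k.eq_nat_or_neg
  · rw [zpow_natCast]
    exact hn T n
  · rw [zpow_neg, zpow_natCast, ← inv_pow]
    exact hn T.symm n

/-- bounded representatives -/
theorem exists_rep' {μ : Measure X} (f : X → ℂ) (hf : MemLp f ⊤ μ) :
    ∃ (C : ℂ) (h : X → ℂ), Measurable h ∧ (∀ x, ‖h x‖ ≤ 1) ∧ f =ᵐ[μ] fun x => C * h x := by
  obtain ⟨f', hf'm, hf'⟩ := hf.1
  have hfm : Measurable f' := hf'm.measurable
  obtain ⟨C, hC⟩ : ∃ C : ℝ, C = max 1 (eLpNormEssSup f μ).toReal := ⟨_, rfl⟩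
  have hC1 : 1 ≤ C := by rw [hC]; exact le_max_left _ _
  have hC0 : 0 < C := by linarith
  have hb : ∀ᵐ x ∂μ, ‖f x‖ ≤ C := by
    have h1 : eLpNormEssSup f μ ≠ ⊤ := by
      have := hf.2
      rw [eLpNorm_exponent_top] at this
      exact this.ne
    filter_upwards [ae_le_eLpNormEssSup (f := f) (μ := μ)] with x hx
    rw [hC]
    refine le_trans ?_ (le_max_right _ _)
    have := ENNReal.toReal_mono h1 hx
    simpa using this
  have hmeas : Measurable (fun x => if ‖f' x‖ ≤ C then ((C⁻¹ : ℝ) : ℂ) * f' x else 0) :=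
    Measurable.ite (measurableSet_le hfm.norm measurable_const) (hfm.const_mul _) measurable_const
  have hbd : ∀ x, ‖(if ‖f' x‖ ≤ C then ((C⁻¹ : ℝ) : ℂ) * f' x else 0)‖ ≤ 1 := by
    intro x
    split_ifs with h
    · rw [norm_mul, Complex.norm_real, Real.norm_eq_abs, abs_of_pos (inv_pos.2 hC0),
        inv_mul_le_iff₀ hC0, mul_one]
      exact h
    · simp
  refine ⟨(C : ℂ), _, hmeas, hbd, ?_⟩
  filter_upwards [hb, hf'] with x hx1 hx2
  show f x = (C : ℂ) * (if ‖f' x‖ ≤ C then ((C⁻¹ : ℝ) : ℂ) * f' x else 0)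
  rw [← hx2, if_pos hx1]
  have hCc : (C : ℂ) ≠ 0 := by exact_mod_cast hC0.ne'
  push_cast
  field_simp

end

/-- shift space -/
abbrev YY : Type := ℤ → Fin 3 → ℂ

/-- the shift -/
def shiftY : YY ≃ᵐ YY where
  toFun y k := y (k + 1)
  invFun y k := y (k - 1)
  left_inv y := by funext k; show y (k - 1 + 1) = y k; rw [sub_add_cancel]
  right_inv y := by funext k; show y (k + 1 - 1) = y k; rw [add_sub_cancel_right]
  measurable_toFun := measurable_pi_lambda _ fun k => measurable_pi_apply (k + 1)
  measurable_invFun := measurable_pi_lambda _ fun k => measurable_pi_apply (k - 1)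

theorem shiftY_iter (m : ℕ) (y : YY) (k : ℤ) : (shiftY^[m] y) k = y (k + m) := by
  induction m generalizing y with
  | zero => simp
  | succ m ih =>
    rw [Function.iterate_succ_apply, ih]
    show y (k + m + 1) = _
    congr 1; push_cast; ring

/-- every sequence of three term correlations (with arbitrary nonnegative exponents) of a system in
any universe comes from a system on a shift space, with functions bounded by one -/
theorem reduce {X : Type u} [MeasurableSpace X] (μ : Measure X) [IsProbabilityMeasure μ]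
    (T : X ≃ᵐ X) (hT : MeasurePreserving T μ μ) (f : Fin 3 → X → ℂ) (hf : ∀ i, MemLp (f i) ⊤ μ) :
    ∃ (ν : Measure YY) (_ : IsProbabilityMeasure ν) (F : Fin 3 → YY → ℂ) (K : ℂ),
      MeasurePreserving shiftY ν ν ∧ (∀ i, Measurable (F i)) ∧ (∀ i y, ‖F i y‖ ≤ 1) ∧
      ∀ m : Fin 3 → ℕ, ∫ x, ∏ i, f i (T^[m i] x) ∂μ = K * ∫ y, ∏ i, F i (shiftY^[m i] y) ∂ν := by
  choose Kf g hg hgb hfg using fun i => exists_rep' (f i) (hf i)
  let φ : X → YY := fun x k i => g i (((T.toEquiv : Equiv.Perm X) ^ k) x)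
  have hφ : Measurable φ := measurable_pi_lambda _ fun k => measurable_pi_lambda _ fun i =>
    (hg i).comp (perm_meas' T k)
  have hcomm : ∀ x, shiftY (φ x) = φ (T x) := by
    intro x
    funext k i
    show g i (((T.toEquiv : Equiv.Perm X) ^ (k + 1)) x) = g i (((T.toEquiv : Equiv.Perm X) ^ k) (T x))
    rw [zpow_add, zpow_one]
    rfl
  have hmp : MeasurePreserving φ μ (μ.map φ) := ⟨hφ, rfl⟩
  have : IsProbabilityMeasure (μ.map φ) := Measure.isProbabilityMeasure_map hφ.aemeasurable
  have hS : MeasurePreserving shiftY (μ.map φ) (μ.map φ) := by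
    refine ⟨shiftY.measurable, ?_⟩
    rw [Measure.map_map shiftY.measurable hφ]
    have : (shiftY ∘ φ) = φ ∘ T := funext hcomm
    rw [this, ← Measure.map_map hφ T.measurable, hT.map_eq]
  let F : Fin 3 → YY → ℂ := fun i y => if ‖y 0 i‖ ≤ 1 then y 0 i else 0
  have hF : ∀ i, Measurable (F i) := by
    intro i
    have h1 : Measurable (fun y : YY => y 0 i) :=
      (measurable_pi_apply i).comp (measurable_pi_apply (0 : ℤ))
    exact Measurable.ite (measurableSet_le h1.norm measurable_const) h1 measurable_const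
  have hFb : ∀ i y, ‖F i y‖ ≤ 1 := by
    intro i y
    simp only [F]
    split_ifs with h
    · exact h
    · simp
  refine ⟨μ.map φ, this, F, ∏ i, Kf i, hS, hF, hFb, fun m => ?_⟩
  have hFm : Measurable (fun y : YY => ∏ i, F i (shiftY^[m i] y)) :=
    Finset.measurable_fun_prod _ fun i _ => (hF i).comp (shiftY.measurable.iterate (m i))
  rw [integral_map hφ.aemeasurable hFm.aestronglyMeasurable, ← integral_const_mul]
  apply integral_congr_ae
  have hall : ∀ᵐ x ∂μ, ∀ i, f i (T^[m i] x) = Kf i * g i (T^[m i] x) := by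
    rw [ae_all_iff]
    intro i
    exact (hT.iterate (m i)).quasiMeasurePreserving.ae_eq_comp (hfg i)
  filter_upwards [hall] with x hx
  rw [Finset.prod_congr rfl fun i _ => hx i, Finset.prod_mul_distrib]
  congr 1
  refine Finset.prod_congr rfl fun i _ => ?_
  have h1 : (shiftY^[m i] (φ x)) 0 i = g i (T^[m i] x) := by
    rw [shiftY_iter]
    show g i (((T.toEquiv : Equiv.Perm X) ^ (0 + (m i : ℤ))) x) = _
    rw [zero_add, zpow_natCast]
    congr 1
  simp only [F]
  rw [h1, if_pos (hgb i _)]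

end Pool.Agent.H887R3.UC
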