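import Pool.Agent.H887R3.UC.Corner
import Pool.Agent.H887R3.UC.Red
import Pool.Agent.Helper306.TC.Asm1

/-! # MP_26bfe6_an: assembly (helper887) -/

open scoped ComplexConjugate InnerProductSpace
open MeasureTheory Filter Topology

set_option autoImplicit false
set_option linter.unusedSectionVars false

namespace Pool.Agent.H887R3.UC

open Pool.TC (PSys avg ee inner_def)
open Pool.TC.Dec Pool.TC.Asm

/-! ### the random integers -/

theorem aval_nonneg {N : ℕ} (ω : Om N) : 0 ≤ aval Lv ω := by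
  rw [Corner.aval_eq]
  exact Int.natCast_nonneg _

/-- the zero sample -/
def om0 (N : ℕ) : Om N := (fun _ => false, fun m => ⟨0, Hm_pos m⟩)

theorem eq_om0 {N : ℕ} (ω : Om N) (h : aval Lv ω = 0) : ω = om0 N := by
  rw [Corner.aval_eq] at h
  have h1 : ∑ m ∈ Finset.range N, Corner.dx ω m * Corner.Ln m = 0 := by exact_mod_cast h
  rw [Finset.sum_eq_zero_iff] at h1
  have h2 : ∀ m : Fin N, Corner.dn ω m = 0 := by
    intro m
    have h3 := h1 m (Finset.mem_range.2 m.2)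
    rcases Nat.mul_eq_zero.1 h3 with h4 | h4
    · unfold Corner.dx at h4
      rw [dif_pos m.2] at h4
      exact h4
    · exact absurd h4 (Corner.Ln_pos m).ne'
  unfold Corner.dn at h2
  obtain ⟨b, r⟩ := ω
  unfold om0
  refine Prod.ext (funext fun m => ?_) (funext fun m => ?_)
  · have := h2 m
    simp only at this ⊢
    by_contra hb
    rw [Bool.not_eq_false] at hb
    rw [if_pos hb] at this
    omega
  · have := h2 m
    simp only at this ⊢
    apply Fin.ext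
    show (r m : ℕ) = 0
    omega

theorem card_Om_ge (N : ℕ) : N ≤ Fintype.card (Om N) := by
  rw [Fintype.card_prod]
  have h1 : Fintype.card (Fin N → Bool) = 2 ^ N := by simp
  have h2 : 0 < Fintype.card ((m : Fin N) → Fin (Hm m)) := Fintype.card_pos
  rw [h1]
  calc N ≤ 2 ^ N := Nat.lt_two_pow_self.le
    _ = 2 ^ N * 1 := (Nat.mul_one _).symm
    _ ≤ _ := Nat.mul_le_mul_left _ h2

/-! ### the decay for functions -/

section
variable {X : Type} [MeasurableSpace X] {μ : Measure X} [IsProbabilityMeasure μ]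

theorem decay_int (T : X ≃ᵐ X) (hT : MeasurePreserving T μ μ) (f0 f1 f2 : BM X)
    (h0 : ∀ x, ‖f0.1 x‖ ≤ 1) (h1 : ∀ x, ‖f1.1 x‖ ≤ 1) (h2 : ∀ x, ‖f2.1 x‖ ≤ 1)
    (t : ℝ) (ht : ∀ n : ℤ, 10 * t ≠ n) (ε : ℝ) (hε : 0 < ε) :
    ∃ N₀, ∀ N ≥ N₀, ‖avg fun ω : Om N => ee (t * Wd ω) *
      ∫ x, f0.1 x * (f1.1 (((T.toEquiv : Equiv.Perm X) ^ (aval Lv ω)) x) *
        f2.1 (((T.toEquiv : Equiv.Perm X) ^ (4 * aval Lv ω)) x)) ∂μ‖ ≤ ε := by
  letI := psysBM T hT
  have hb0 : f0 ∈ (PSys.ball : Set (BM X)) := by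
    show f0 ∈ {f : BM X | ∀ x, ‖f.1 x‖ ≤ 1}
    exact h0
  have hb1 : f1 ∈ (PSys.ball : Set (BM X)) := by
    show f1 ∈ {f : BM X | ∀ x, ‖f.1 x‖ ≤ 1}
    exact h1
  have hb2 : f2 ∈ (PSys.ball : Set (BM X)) := by
    show f2 ∈ {f : BM X | ∀ x, ‖f.1 x‖ ≤ 1}
    exact h2
  obtain ⟨N0, hN0⟩ := decay Lv f1 f2 hb1 hb2 t ht ε hε
  refine ⟨N0, fun N hN => ?_⟩
  have h3 := hN0 N hN
  have h4 : (avg fun ω : Om N => ee (t * Wd ω) *
      ∫ x, f0.1 x * (f1.1 (((T.toEquiv : Equiv.Perm X) ^ (aval Lv ω)) x) *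
        f2.1 (((T.toEquiv : Equiv.Perm X) ^ (4 * aval Lv ω)) x)) ∂μ) =
      ⟪star f0, avg fun ω : Om N => ee (t * Wd ω) • (PSys.tau (aval Lv ω) f1 *
        PSys.tau (4 * aval Lv ω) f2)⟫_ℂ := by
    rw [inner_avg_right]
    refine avg_congr fun ω => ?_
    rw [inner_smul_right, inner_def, star_star]
    rfl
  rw [h4]
  calc _ ≤ ‖star f0‖ * ‖avg fun ω : Om N => ee (t * Wd ω) • (PSys.tau (aval Lv ω) f1 *
        PSys.tau (4 * aval Lv ω) f2)‖ := norm_inner_le_norm _ _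
    _ ≤ 1 * ε := mul_le_mul (norm_ball (PSys.star_mem _ hb0)) h3 (norm_nonneg _) zero_le_one
    _ = ε := one_mul ε

/-- the decay along the correlation sequence with exponents `6 n, 3 n, 2 n` -/
theorem decay_seq (T : X ≃ᵐ X) (hT : MeasurePreserving T μ μ) (F : Fin 3 → X → ℂ)
    (hF : ∀ i, Measurable (F i)) (hb : ∀ i x, ‖F i x‖ ≤ 1)
    (t : ℝ) (ht : ∀ n : ℤ, 10 * t ≠ n) (ε : ℝ) (hε : 0 < ε) :
    ∃ N₀, ∀ N ≥ N₀, ‖avg fun ω : Om N => ee (t * Wd ω) *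
      ∫ x, F 0 (T^[6 * (aval Lv ω).toNat] x) * F 1 (T^[3 * (aval Lv ω).toNat] x) *
        F 2 (T^[2 * (aval Lv ω).toNat] x) ∂μ‖ ≤ ε := by
  obtain ⟨N0, hN0⟩ := decay_int T hT ⟨F 2, hF 2, 1, hb 2⟩ ⟨F 1, hF 1, 1, hb 1⟩ ⟨F 0, hF 0, 1, hb 0⟩
    (hb 2) (hb 1) (hb 0) t ht ε hε
  refine ⟨N0, fun N hN => ?_⟩
  refine le_trans (le_of_eq ?_) (hN0 N hN)
  congr 1
  refine avg_congr fun ω => ?_
  congr 1
  obtain ⟨n, hn⟩ := Int.eq_ofNat_of_zero_le (aval_nonneg ω)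
  rw [hn]
  have hpow : ∀ (k : ℕ) (x : X), (((T.toEquiv : Equiv.Perm X) ^ ((k : ℕ) : ℤ)) x) = T^[k] x := by
    intro k x
    rw [zpow_natCast]
    rfl
  have e4 : (4 : ℤ) * (n : ℤ) = ((4 * n : ℕ) : ℤ) := by push_cast; ring
  have e5 : ((n : ℤ)).toNat = n := by simp
  simp only [e5]
  have hm : Measurable (fun x => F 0 (T^[4 * n] x) * F 1 (T^[n] x) * F 2 x) :=
    (((hF 0).comp (T.measurable.iterate _)).mul ((hF 1).comp (T.measurable.iterate _))).mul (hF 2)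
  have h2 := hT.iterate (2 * n)
  have h3 : ∫ x, F 0 (T^[4 * n] x) * F 1 (T^[n] x) * F 2 x ∂μ =
      ∫ x, F 0 (T^[4 * n] (T^[2 * n] x)) * F 1 (T^[n] (T^[2 * n] x)) * F 2 (T^[2 * n] x) ∂μ := by
    conv_lhs => rw [← h2.map_eq]
    rw [integral_map h2.measurable.aemeasurable hm.aestronglyMeasurable]
  have h4 : ∀ x, T^[6 * n] x = T^[4 * n] (T^[2 * n] x) := by
    intro x
    rw [← Function.iterate_add_apply]
    congr 2; ring
  have h5 : ∀ x, T^[3 * n] x = T^[n] (T^[2 * n] x) := by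
    intro x
    rw [← Function.iterate_add_apply]
    congr 2; ring
  simp_rw [h4, h5]
  rw [← h3]
  refine integral_congr_ae (Eventually.of_forall fun x => ?_)
  show F 0 (T^[4 * n] x) * F 1 (T^[n] x) * F 2 x = F 2 x * (F 1 (((T.toEquiv : Equiv.Perm X) ^ (n : ℤ)) x) *
    F 0 (((T.toEquiv : Equiv.Perm X) ^ (4 * (n : ℤ))) x))
  rw [e4, hpow, hpow]
  ring

end

theorem ee_neg_mul (s : ℝ) : ee (-s) * ee s = 1 := by
  rw [← ee_add, neg_add_cancel, ee_zero]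

/-- **Main estimate.** There is a correlation sequence of two commuting maps, which is at sup
distance at least `9/10` from every sequence of correlations with exponents `6 n, 3 n, 2 n`. -/
theorem main_est :
    ∃ (X : Type) (_ : MeasurableSpace X) (μ : Measure X) (_ : IsProbabilityMeasure μ)
      (T₁ T₂ : X ≃ᵐ X), MeasurePreserving T₁ μ μ ∧ MeasurePreserving T₂ μ μ ∧
      (∀ x, T₁ (T₂ x) = T₂ (T₁ x)) ∧
      ∃ f₀ f₁ f₂ : X → ℂ, Measurable f₀ ∧ Measurable f₁ ∧ Measurable f₂ ∧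
        (∀ x, ‖f₀ x‖ ≤ 1) ∧ (∀ x, ‖f₁ x‖ ≤ 1) ∧ (∀ x, ‖f₂ x‖ ≤ 1) ∧
        ∀ (Y : Type) (_ : MeasurableSpace Y) (ν : Measure Y) (_ : IsProbabilityMeasure ν)
          (S : Y ≃ᵐ Y) (F : Fin 3 → Y → ℂ) (K : ℂ), MeasurePreserving S ν ν →
          (∀ i, Measurable (F i)) → (∀ i y, ‖F i y‖ ≤ 1) →
          ∃ n : ℕ, 1 ≤ n ∧ 9 / 10 ≤ ‖(∫ x, f₀ x * f₁ (T₁^[n] x) * f₂ (T₂^[n] x) ∂μ) -
            K * ∫ y, F 0 (S^[6 * n] y) * F 1 (S^[3 * n] y) * F 2 (S^[2 * n] y) ∂ν‖ := by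
  obtain ⟨X, hX, μ, hμ, T1, T2, hT1, hT2, hcomm, f0, f1, f2, hf0, hf1, hf2, hb0, hb1, hb2, hkey⟩ :=
    Corner.corner
  refine ⟨X, hX, μ, hμ, T1, T2, hT1, hT2, hcomm, f0, f1, f2, hf0, hf1, hf2, hb0, hb1, hb2, ?_⟩
  intro Y _ ν _ S F K hS hF hFb
  by_contra hcon
  push Not at hcon
  set c : ℕ → ℂ := fun n => ∫ x, f0 x * f1 (T1^[n] x) * f2 (T2^[n] x) ∂μ with hc
  set b : ℕ → ℂ := fun n => ∫ y, F 0 (S^[6 * n] y) * F 1 (S^[3 * n] y) * F 2 (S^[2 * n] y) ∂ν with hb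
  have hcon' : ∀ n, 1 ≤ n → ‖c n - K * b n‖ < 9 / 10 := hcon
  -- the corner part
  have hcor : ∀ (N : ℕ) (ω : Om N), ‖c (aval Lv ω).toNat - ee (Wd ω / 25)‖ ≤ 1 / 20 := by
    intro N ω
    have h1 := hkey N ω
    obtain ⟨n, hn⟩ := Int.eq_ofNat_of_zero_le (aval_nonneg ω)
    rw [hn] at h1 ⊢
    have e5 : ((n : ℤ)).toNat = n := by simp
    rw [e5]
    have hpow : ∀ (T : X ≃ᵐ X) (x : X), (((T.toEquiv : Equiv.Perm X) ^ ((n : ℕ) : ℤ)) x) = T^[n] x := by
      intro T x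
      rw [zpow_natCast]
      rfl
    simp_rw [hpow] at h1
    exact h1
  -- the decay
  set ε : ℝ := 1 / (100 * (‖K‖ + 1)) with hε
  have hε0 : 0 < ε := by positivity
  have hKε : ‖K‖ * ε ≤ 1 / 100 := by
    rw [hε, mul_one_div, div_le_div_iff₀ (by positivity) (by norm_num)]
    nlinarith [norm_nonneg K]
  have ht : ∀ n : ℤ, 10 * (-(1 / 25 : ℝ)) ≠ n := by
    intro n hn
    have h1 : (-(2 : ℝ)) = 5 * n := by linarith
    have h2 : (-2 : ℤ) = 5 * n := by exact_mod_cast h1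
    omega
  obtain ⟨N0, hN0⟩ := decay_seq S hS F hF hFb (-(1 / 25)) ht ε hε0
  set M : ℝ := ‖c 0 - K * b 0‖ with hM
  obtain ⟨N1, hN1⟩ := exists_nat_gt (100 * M)
  set N := max (max N0 N1) 1 with hN
  have hNN0 : N0 ≤ N := (le_max_left _ _).trans (le_max_left _ _)
  have hNN1 : N1 ≤ N := (le_max_right _ _).trans (le_max_left _ _)
  have hN1' : 1 ≤ N := le_max_right _ _
  have hdec := hN0 N hNN0
  set cd : ℝ := (Fintype.card (Om N) : ℝ) with hcd
  have hcdN : (N : ℝ) ≤ cd := by rw [hcd]; exact_mod_cast card_Om_ge N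
  have hcd0 : 0 < cd := lt_of_lt_of_le (by exact_mod_cast hN1') hcdN
  -- linearity
  have lin : ∀ {κ : Type} [Fintype κ] (c : ℂ) (f : κ → ℂ), c * avg f = avg fun r => c * f r := by
    intro κ _ c f
    unfold avg
    rw [Complex.real_smul, Complex.real_smul, ← Finset.mul_sum]; ring
  have e1 : (avg fun ω : Om N => ee (-(1 / 25) * Wd ω) * (c (aval Lv ω).toNat - K * b (aval Lv ω).toNat)) =
      (avg fun ω : Om N => ee (-(1 / 25) * Wd ω) * c (aval Lv ω).toNat) -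
      K * (avg fun ω : Om N => ee (-(1 / 25) * Wd ω) * b (aval Lv ω).toNat) := by
    rw [lin, ← avg_sub]
    refine avg_congr fun ω => ?_
    ring
  -- lower bound for the corner part
  have e2 : ‖(avg fun ω : Om N => ee (-(1 / 25) * Wd ω) * c (aval Lv ω).toNat) - 1‖ ≤ 1 / 20 := by
    have e3 : (1 : ℂ) = avg fun _ : Om N => (1 : ℂ) := (avg_const _).symm
    rw [e3]
    refine norm_avg_sub_le fun ω => ?_
    have e4 : ee (-(1 / 25) * Wd ω) * c (aval Lv ω).toNat - 1 =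
        ee (-(1 / 25) * Wd ω) * (c (aval Lv ω).toNat - ee (Wd ω / 25)) := by
      have e5 : ee (-(1 / 25) * (Wd ω : ℝ)) * ee ((Wd ω : ℝ) / 25) = 1 := by
        have := ee_neg_mul ((Wd ω : ℝ) / 25)
        rw [← this]
        congr 2; ring
      rw [mul_sub, e5]
    rw [e4, norm_mul, norm_ee, one_mul]
    exact hcor N ω
  -- upper bound for the difference
  have e6 : ‖avg fun ω : Om N => ee (-(1 / 25) * Wd ω) * (c (aval Lv ω).toNat - K * b (aval Lv ω).toNat)‖ ≤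
      9 / 10 + M / cd := by
    classical
    refine (norm_avg_le _).trans ?_
    calc (avg fun ω : Om N => ‖ee (-(1 / 25) * Wd ω) * (c (aval Lv ω).toNat - K * b (aval Lv ω).toNat)‖) ≤
        avg fun ω : Om N => (9 / 10 + if ω = om0 N then M else 0) := by
          refine avg_le_avg fun ω => ?_
          rw [norm_mul, norm_ee, one_mul]
          by_cases h : aval Lv ω = 0
          · rw [if_pos (eq_om0 ω h), h]
            show ‖c 0 - K * b 0‖ ≤ _
            linarith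
          · have h2 : 1 ≤ (aval Lv ω).toNat := by
              have := aval_nonneg ω
              omega
            have h3 := hcon' _ h2
            have h4 : (0 : ℝ) ≤ if ω = om0 N then M else 0 := by
              split_ifs
              · exact norm_nonneg _
              · exact le_rfl
            linarith
      _ = 9 / 10 + M / cd := by
          rw [avg_add, avg_const]
          congr 1
          unfold avg
          rw [Finset.sum_ite_eq' Finset.univ (om0 N), if_pos (Finset.mem_univ _), smul_eq_mul,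
            ← hcd, inv_mul_eq_div]
  have hMc : M / cd ≤ 1 / 100 := by
    rw [div_le_div_iff₀ hcd0 (by norm_num)]
    have : (N1 : ℝ) ≤ N := by exact_mod_cast hNN1
    linarith
  rw [e1] at e6
  set P := (avg fun ω : Om N => ee (-(1 / 25) * Wd ω) * c (aval Lv ω).toNat) with hP
  set Q := (avg fun ω : Om N => ee (-(1 / 25) * Wd ω) * b (aval Lv ω).toNat) with hQ
  have hQ' : ‖Q‖ ≤ ε := hdec
  have h7 : ‖K * Q‖ ≤ 1 / 100 := by
    rw [norm_mul]
    exact (mul_le_mul_of_nonneg_left hQ' (norm_nonneg _)).trans hKε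
  have h8 : (1 : ℝ) ≤ ‖P - K * Q‖ + ‖K * Q‖ + ‖P - 1‖ := by
    have e9 : (1 : ℂ) = (P - K * Q) + K * Q - (P - 1) := by ring
    calc (1 : ℝ) = ‖(1 : ℂ)‖ := norm_one.symm
      _ = ‖(P - K * Q) + K * Q - (P - 1)‖ := by rw [← e9]
      _ ≤ ‖(P - K * Q) + K * Q‖ + ‖P - 1‖ := norm_sub_le _ _
      _ ≤ _ := by gcongr; exact norm_add_le _ _
  linarith

end Pool.Agent.H887R3.UC
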